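import Pool.Agent.McT.Basic

/-! Averages over signs, by recursion over a list, and the fourth moment. -/

set_option autoImplicit false
set_option linter.unusedSectionVars false

namespace Pool.McT

/-- The average of `φ (b ± a₁ ± a₂ ± ..)` over all choices of signs. -/
noncomputable def avgS {A : Type*} [AddCommGroup A] : List A → (A → ℝ) → A → ℝ
  | [], φ, b => φ b
  | a :: l, φ, b => (avgS l φ (b + a) + avgS l φ (b - a)) / 2

section
variable {A : Type*} [AddCommGroup A]

theorem avgS_mono (l : List A) {φ ψ : A → ℝ} (h : ∀ x, φ x ≤ ψ x) (b : A) :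
    avgS l φ b ≤ avgS l ψ b := by
  induction l generalizing b with
  | nil => exact h b
  | cons a l ih =>
    have h1 := ih (b + a)
    have h2 := ih (b - a)
    simp only [avgS]
    linarith

theorem avgS_add (l : List A) (φ ψ : A → ℝ) (b : A) :
    avgS l (fun x => φ x + ψ x) b = avgS l φ b + avgS l ψ b := by
  induction l generalizing b with
  | nil => rfl
  | cons a l ih =>
    simp only [avgS, ih]
    ring

theorem avgS_smul (l : List A) (c : ℝ) (φ : A → ℝ) (b : A) :
    avgS l (fun x => c * φ x) b = c * avgS l φ b := by
  induction l generalizing b with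
  | nil => rfl
  | cons a l ih =>
    simp only [avgS, ih]
    ring

theorem avgS_const (l : List A) (c : ℝ) (b : A) : avgS l (fun _ => c) b = c := by
  induction l generalizing b with
  | nil => rfl
  | cons a l ih =>
    simp only [avgS, ih]
    ring

/-- Functions which satisfy the parallelogram law. -/
def Quad (Q : A → ℝ) : Prop := ∀ x y, Q (x + y) + Q (x - y) = 2 * Q x + 2 * Q y

theorem avgS_quad (l : List A) {Q : A → ℝ} (hQ : Quad Q) (b : A) :
    avgS l Q b = Q b + (l.map Q).sum := by
  induction l generalizing b with
  | nil => simp [avgS]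
  | cons a l ih =>
    simp only [avgS, ih, List.map_cons, List.sum_cons]
    have h := hQ b a
    linarith

theorem Quad.add {Q R : A → ℝ} (hQ : Quad Q) (hR : Quad R) : Quad (fun x => Q x + R x) := by
  intro x y
  have h1 := hQ x y
  have h2 := hR x y
  dsimp only
  linarith

theorem Quad.smul {Q : A → ℝ} (hQ : Quad Q) (c : ℝ) : Quad (fun x => c * Q x) := by
  intro x y
  have h1 := hQ x y
  dsimp only
  linear_combination c * h1

theorem Quad.sum {ι : Type*} (s : Finset ι) {Q : ι → A → ℝ} (hQ : ∀ i ∈ s, Quad (Q i)) :
    Quad (fun x => ∑ i ∈ s, Q i x) := by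
  intro x y
  dsimp only
  rw [← Finset.sum_add_distrib, Finset.mul_sum, Finset.mul_sum, ← Finset.sum_add_distrib]
  exact Finset.sum_congr rfl fun i hi => hQ i hi x y

/-- The sum over the pairs of the list. -/
noncomputable def pairS (k : A → A → ℝ) : List A → ℝ
  | [] => 0
  | a :: l => k a a / 3 + (l.map fun a' => 2 * k a' a).sum + pairS k l

theorem pairS_le {k : A → A → ℝ} (hk : ∀ x y, k x y = k y x) (h0 : ∀ x, 0 ≤ k x x)
    (l : List A) : pairS k l ≤ (l.map fun a => (l.map fun a' => k a' a).sum).sum := by
  induction l with
  | nil => simp [pairS]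
  | cons a l ih =>
    have e1 : ((a :: l).map fun b => ((a :: l).map fun a' => k a' b).sum).sum =
        k a a + (l.map fun a' => k a' a).sum + ((l.map fun b => k a b).sum +
          (l.map fun b => (l.map fun a' => k a' b).sum).sum) := by
      simp only [List.map_cons, List.sum_cons, List.sum_map_add]
    have e2 : (l.map fun b => k a b).sum = (l.map fun a' => k a' a).sum := by
      congr 1
      exact List.map_congr_left fun b _ => hk a b
    have e3 : (l.map fun a' => 2 * k a' a).sum = 2 * (l.map fun a' => k a' a).sum := by
      rw [List.sum_map_mul_left]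
    rw [e1, e2, pairS, e3]
    have := h0 a
    linarith
end

variable {A : Type*} [CStarAlgebra A] {τ : A →ₗ[ℂ] ℂ}

theorem quad_N (τ : A →ₗ[ℂ] ℂ) : Quad (N τ) := fun x y => N_par x y

theorem quad_N_mul_right (τ : A →ₗ[ℂ] ℂ) (c : A) : Quad fun x => N τ (x * c) := by
  intro x y
  dsimp only
  rw [add_mul, sub_mul, N_par]

theorem quad_N_mul_left (τ : A →ₗ[ℂ] ℂ) (c : A) : Quad fun x => N τ (c * x) := by
  intro x y
  dsimp only
  rw [mul_add, mul_sub, N_par]

theorem quad_N_cm (τ : A →ₗ[ℂ] ℂ) (u : A) : Quad fun x => N τ (cm x u) := by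
  intro x y
  have e1 : cm (x + y) u = cm x u + cm y u := by
    unfold cm
    noncomm_ring
  have e2 : cm (x - y) u = cm x u - cm y u := by
    unfold cm
    noncomm_ring
  dsimp only
  rw [e1, e2, N_par]

/-- The kernel of the fourth moment. -/
noncomputable def kk (τ : A →ₗ[ℂ] ℂ) (x y : A) : ℝ :=
  N τ (x * star y) + 2 * N τ (star x * y)

theorem kk_symm (hτ : IsTr τ) (x y : A) : kk τ x y = kk τ y x := by
  unfold kk
  rw [← N_star hτ (x * star y), ← N_star hτ (star x * y)]
  simp only [star_mul, star_star]

theorem N_sq (hτ : IsTr τ) (x : A) : N τ (x * star x) = N τ (star x * x) := by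
  unfold N
  simp only [star_mul, star_star]
  have h : τ (x * star x * (x * star x)) = τ (star x * x * (star x * x)) := by
    rw [mul_assoc, hτ.comm]
    congr 1
    simp only [mul_assoc]
  rw [h]

theorem kk_self (hτ : IsTr τ) (x : A) : kk τ x x = 3 * N τ (star x * x) := by
  unfold kk
  rw [N_sq hτ]
  ring

theorem kk_nonneg (hτ : IsTr τ) (x y : A) : 0 ≤ kk τ x y := by
  unfold kk
  have h1 := N_nonneg hτ (x * star y)
  have h2 := N_nonneg hτ (star x * y)
  linarith

theorem quad_kk (hτ : IsTr τ) (x : A) : Quad (kk τ x) := by
  intro y z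
  rw [kk_symm hτ x, kk_symm hτ x, kk_symm hτ x, kk_symm hτ x]
  have h1 := quad_N_mul_right τ (star x) y z
  have h2 := quad_N_mul_left τ (star x) y z
  have h3 : ∀ w : A, N τ (star w * x) = N τ (star x * w) := by
    intro w
    rw [← N_star hτ (star w * x), star_mul, star_star]
  unfold kk
  rw [h3, h3, h3, h3]
  dsimp only at h1 h2
  linarith

/-- One step: `N ((b + a)* (b + a))` averaged over the sign of `a`. -/
theorem four_step (hτ : IsTr τ) (a b : A) :
    (N τ (star (b + a) * (b + a)) + N τ (star (b - a) * (b - a))) / 2 ≤
      N τ (star b * b) + N τ (star a * a) + 2 * kk τ a b := by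
  have e1 : star (b + a) * (b + a) = (star b * b + star a * a) + (star b * a + star a * b) := by
    rw [star_add]
    noncomm_ring
  have e2 : star (b - a) * (b - a) = (star b * b + star a * a) - (star b * a + star a * b) := by
    rw [star_sub]
    noncomm_ring
  rw [e1, e2]
  have h1 := N_par (τ := τ) (star b * b + star a * a) (star b * a + star a * b)
  have h2 := N_add_le hτ (star b * a) (star a * b)
  have h3 : N τ (star b * a) = N τ (star a * b) := by
    rw [← N_star hτ (star b * a), star_mul, star_star]
  have h4 : N τ (star b * b + star a * a) =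
      N τ (star b * b) + N τ (star a * a) + 2 * N τ (a * star b) := by
    unfold N
    have e3 : star (star b * b + star a * a) * (star b * b + star a * a) =
        star (star b * b) * (star b * b) + star (star a * a) * (star a * a) +
          (star b * b * (star a * a) + star a * a * (star b * b)) := by
      simp only [star_add, star_mul, star_star]
      noncomm_ring
    have e4 : τ (star b * b * (star a * a)) = τ (star (a * star b) * (a * star b)) := by
      have e5 : star b * b * (star a * a) = star b * (b * star a * a) := by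
        simp only [mul_assoc]
      rw [e5, hτ.comm]
      congr 1
      simp only [star_mul, star_star, mul_assoc]
    have e6 : τ (star a * a * (star b * b)) = τ (star (a * star b) * (a * star b)) := by
      rw [hτ.comm, e4]
    rw [e3, map_add, map_add, map_add, e4, e6]
    simp only [Complex.add_re]
    ring
  unfold kk
  rw [h4] at h1
  rw [h3] at h2
  have h5 : N τ (a * star b) ≥ 0 := N_nonneg hτ _
  nlinarith

theorem avgS_four (hτ : IsTr τ) (l : List A) (b : A) :
    avgS l (fun x => N τ (star x * x)) b ≤
      N τ (star b * b) + (l.map fun a => 2 * kk τ a b).sum + pairS (kk τ) l := by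
  induction l generalizing b with
  | nil => simp [avgS, pairS]
  | cons a l ih =>
    have h1 := ih (b + a)
    have h2 := ih (b - a)
    have h3 := four_step hτ a b
    have h4 : (l.map fun a' => 2 * kk τ a' (b + a)).sum + (l.map fun a' => 2 * kk τ a' (b - a)).sum
        = 2 * (l.map fun a' => 2 * kk τ a' b).sum + 2 * (l.map fun a' => 2 * kk τ a' a).sum := by
      rw [← List.sum_map_add, ← List.sum_map_mul_left, ← List.sum_map_mul_left,
        ← List.sum_map_add]
      congr 1
      refine List.map_congr_left fun a' _ => ?_
      have := quad_kk hτ a' b a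
      linarith
    simp only [avgS, pairS, List.map_cons, List.sum_cons]
    rw [kk_self hτ]
    linarith

/-- If `∑ N (a_q x) ≤ K N x` and `∑ N (x a_q) ≤ K N x` for all `x`, then the fourth moment of
the random sum is at most `3 K ∑ N (a_q)`. -/
theorem avgS_four_le (hτ : IsTr τ) (l : List A) {K : ℝ}
    (h1 : ∀ x, (l.map fun a => N τ (a * x)).sum ≤ K * N τ x)
    (h2 : ∀ x, (l.map fun a => N τ (x * a)).sum ≤ K * N τ x) :
    avgS l (fun x => N τ (star x * x)) 0 ≤ 3 * K * (l.map (N τ)).sum := by
  have h3 := avgS_four hτ l 0
  have h4 := pairS_le (kk_symm hτ) (fun x => kk_nonneg hτ x x) l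
  have h5 : (l.map fun a => 2 * kk τ a 0).sum = 0 := by
    have : ∀ a : A, 2 * kk τ a 0 = 0 := by
      intro a
      unfold kk
      rw [star_zero, mul_zero, mul_zero, N_zero]
      ring
    simp [this]
  have h6 : (l.map fun a => (l.map fun a' => kk τ a' a).sum).sum ≤
      (l.map fun a => 3 * K * N τ a).sum := by
    refine List.sum_le_sum fun a _ => ?_
    have e1 : (l.map fun a' => kk τ a' a).sum = (l.map fun a' => N τ (a' * star a)).sum +
        2 * (l.map fun a' => N τ (star a * a')).sum := by
      rw [← List.sum_map_mul_left, ← List.sum_map_add]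
      congr 1
      refine List.map_congr_left fun a' _ => ?_
      unfold kk
      rw [← N_star hτ (star a' * a), star_mul, star_star]
    rw [e1]
    have h7 := h1 (star a)
    have h8 := h2 (star a)
    rw [N_star hτ] at h7 h8
    linarith
  rw [List.sum_map_mul_left] at h6
  have h9 : N τ (star (0 : A) * 0) = 0 := by rw [mul_zero, N_zero]
  have h10 : (l.map (N τ)).sum = (l.map fun a => N τ a).sum := rfl
  rw [h5, h9] at h3
  rw [h10]
  linarith

end Pool.McT
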