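import Pool.Agent.McT.Q.Two

/-! Two partners: the final theorems. -/

set_option autoImplicit false

namespace Pool.McT

open Filter Topology

variable {A B₁ B₂ D₁ D₂ E : Type*} [CStarAlgebra A] [CStarAlgebra B₁] [CStarAlgebra B₂]
  [CStarAlgebra D₁] [CStarAlgebra D₂] [CStarAlgebra E]
  {τA : A →ₗ[ℂ] ℂ} {τ₁ : B₁ →ₗ[ℂ] ℂ} {τ₂ : B₂ →ₗ[ℂ] ℂ} {τD₁ : D₁ →ₗ[ℂ] ℂ}
  {τD₂ : D₂ →ₗ[ℂ] ℂ} {τE : E →ₗ[ℂ] ℂ}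
  {i₁ : A →⋆ₐ[ℂ] D₁} {k₁ : B₁ →⋆ₐ[ℂ] D₁} {i₂ : A →⋆ₐ[ℂ] D₂} {k₂ : B₂ →⋆ₐ[ℂ] D₂}
  {j₁ : D₁ →⋆ₐ[ℂ] E} {kE : B₂ →⋆ₐ[ℂ] E} {j₂ : D₂ →⋆ₐ[ℂ] E}

private theorem one_re_Fin {B : Type*} [CStarAlgebra B] {τ : B →ₗ[ℂ] ℂ} (hτ : IsTr τ) :
    0 ≤ (τ 1).re := by
  have h := hτ.nonneg 1
  rwa [star_one, mul_one] at h

private theorem N_le_Fin {D : Type*} [CStarAlgebra D] {τ : D →ₗ[ℂ] ℂ} (hτ : IsTr τ) {x : D}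
    {K : ℝ} (hx : ‖x‖ ≤ K) : N τ x ≤ K ^ 2 * N τ 1 := by
  have h1 := N_mul_le_left hτ x 1
  rw [mul_one] at h1
  exact h1.trans (mul_le_mul_of_nonneg_right (pow_le_pow_left₀ (norm_nonneg _) hx 2)
    (N_nonneg hτ 1))

private theorem SA_le_Fin {D : Type*} [CStarAlgebra D] {τ : D →ₗ[ℂ] ℂ} (hτ : IsTr τ)
    (i : A →⋆ₐ[ℂ] D) (F : Finset A) (g g' : D) {η : ℝ} (h : N τ (g - g') ≤ η) :
    SA τ i F g' ≤ 2 * SA τ i F g + 16 * (∑ u ∈ F, ‖u‖ ^ 2) * η := by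
  unfold SA
  rw [Finset.mul_sum, Finset.mul_sum, Finset.sum_mul, ← Finset.sum_add_distrib]
  refine Finset.sum_le_sum fun u _ => ?_
  have hη : 0 ≤ η := (N_nonneg hτ _).trans h
  have hu : ‖i u‖ ^ 2 ≤ ‖u‖ ^ 2 :=
    pow_le_pow_left₀ (norm_nonneg _) (NonUnitalStarAlgHom.norm_apply_le i u) 2
  have key : ∀ x y : D, N τ (x - y) ≤ η →
      N τ (cm y (i u)) ≤ 2 * N τ (cm x (i u)) + 8 * ‖u‖ ^ 2 * η := by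
    intro x y hxy
    have e : cm y (i u) = cm x (i u) + -cm (x - y) (i u) := by
      unfold cm
      noncomm_ring
    have h1 := N_add_le hτ (cm x (i u)) (-cm (x - y) (i u))
    rw [N_neg, ← e] at h1
    have h2 := N_cm_le_MainZ hτ (x - y) (i u)
    have h3 : 4 * ‖i u‖ ^ 2 * N τ (x - y) ≤ 4 * ‖u‖ ^ 2 * η :=
      mul_le_mul (by linarith) hxy (N_nonneg hτ _) (by positivity)
    linarith
  have h1 := key g g' h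
  have h2 := key (star g) (star g') (by rwa [← star_sub, N_star hτ])
  linarith

/-- Two partners, quantitative form. -/
theorem two_factor (H : Tri τD₁ τ₂ τD₂ τE i₁ i₂ k₂ j₁ kE j₂) (T₁ : Tens τA τ₁ τD₁ i₁ k₁)
    (hd₁ : Dense2 τD₁ i₁ k₁) (T₂ : Tens τA τ₂ τD₂ i₂ k₂) (hd₂ : Dense2 τD₂ i₂ k₂)
    (hA : Fac τA) (hf₁ : ∀ x : B₁, N τ₁ x = 0 → x = 0) (hf₂ : ∀ x : B₂, N τ₂ x = 0 → x = 0)
    (sA : Sep τA) (mA : ¬ McDuff τA) {ε : ℝ} (hε : 0 < ε) (K : ℝ) :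
    ∃ (F : Finset A) (C : ℝ), 0 ≤ C ∧ ∀ (f : D₁) (g : D₂), ‖f‖ ≤ K → ‖g‖ ≤ K →
      N τE (cm (j₁ f) (j₂ g)) ≤ ε + C * (SA τD₁ i₁ F f + SA τD₂ i₂ F g) := by
  have t₁ := one_re_Fin T₁.trB
  have t₂ := one_re_Fin T₂.trB
  have n₁ := N_nonneg T₁.trD (1 : D₁)
  have n₂ := N_nonneg T₂.trD (1 : D₂)
  obtain ⟨M, hM⟩ : ∃ M : ℝ, M = 2 * K + 1 := ⟨_, rfl⟩
  obtain ⟨c₁, hc₁⟩ : ∃ c₁ : ℝ, c₁ = K ^ 2 * N τD₁ 1 +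
    4 * K ^ 2 * (τ₁ 1).re * (M ^ 2 * N τD₂ 1) := ⟨_, rfl⟩
  obtain ⟨c₂, hc₂⟩ : ∃ c₂ : ℝ, c₂ = 8 * K ^ 2 * (τ₁ 1).re *
    (3 * (M ^ 2 * (τ₂ 1).re) * (M ^ 2 * N τD₂ 1)) := ⟨_, rfl⟩
  have hc₁0 : 0 ≤ c₁ := by rw [hc₁]; positivity
  have hc₂0 : 0 ≤ c₂ := by rw [hc₂]; positivity
  obtain ⟨L, hL⟩ : ∃ L : ℝ, L = 1 + 8 * c₂ / ε := ⟨_, rfl⟩
  have hL1 : 1 ≤ L := by
    rw [hL]
    have : 0 ≤ 8 * c₂ / ε := by positivity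
    linarith
  have hL0 : 0 < L := by linarith
  have hLc : c₂ / L ^ 2 ≤ ε / 8 := by
    rw [div_le_iff₀ (by positivity)]
    have h1 : 8 * c₂ / ε ≤ L := by rw [hL]; linarith
    rw [div_le_iff₀ hε] at h1
    have h2 : L * ε ≤ L ^ 2 * ε := mul_le_mul_of_nonneg_right (by nlinarith) hε.le
    linarith
  obtain ⟨δ, hδ⟩ : ∃ δ : ℝ, δ = ε / (16 * L * (c₁ + 1)) := ⟨_, rfl⟩
  have hδ0 : 0 < δ := by rw [hδ]; positivity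
  have hδc : 2 * L * δ * c₁ ≤ ε / 8 := by
    have h1 : δ * (16 * L * (c₁ + 1)) = ε := by
      rw [hδ]
      field_simp
    have h2 : 0 ≤ L * δ := by positivity
    nlinarith
  obtain ⟨F, C, hC, hP⟩ := one_factor T₁ hd₁ hA hf₁ sA mA hδ0
  obtain ⟨s, hs⟩ : ∃ s : ℝ, s = ∑ u ∈ F, ‖u‖ ^ 2 := ⟨_, rfl⟩
  have hs0 : 0 ≤ s := by
    rw [hs]
    exact Finset.sum_nonneg fun u _ => by positivity
  obtain ⟨c₃, hc₃⟩ : ∃ c₃ : ℝ, c₃ = 2 * L * C * (8 * K ^ 2 * (τ₁ 1).re) := ⟨_, rfl⟩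
  have hc₃0 : 0 ≤ c₃ := by rw [hc₃]; positivity
  obtain ⟨η, hη⟩ : ∃ η : ℝ, η = ε / (2 * (8 * K ^ 2 + 32 * c₃ * s + 1)) := ⟨_, rfl⟩
  have hη0 : 0 < η := by rw [hη]; positivity
  have hηc : (8 * K ^ 2 + 32 * c₃ * s) * η ≤ ε / 2 := by
    have h1 : η * (2 * (8 * K ^ 2 + 32 * c₃ * s + 1)) = ε := by
      rw [hη]
      field_simp
    nlinarith
  obtain ⟨c₄, hc₄⟩ : ∃ c₄ : ℝ, c₄ = 2 * L * C * (8 * L ^ 2 + 1) := ⟨_, rfl⟩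
  have hc₄0 : 0 ≤ c₄ := by rw [hc₄]; positivity
  refine ⟨F, 2 * c₄ + 4 * c₃, by positivity, fun f g hf hg => ?_⟩
  obtain ⟨k, a, b, hg'M, hgg'⟩ := kap T₂ hd₂ hg hη0
  obtain ⟨g', hg'⟩ : ∃ g' : D₂, g' = ∑ i, i₂ (a i) * k₂ (b i) := ⟨_, rfl⟩
  rw [← hg'] at hg'M hgg'
  rw [← hM] at hg'M
  obtain ⟨m, n, e, h, c, -, -, he, hh, hc⟩ := exists_repr T₂ hA.faithful hf₂ k a b
  have hrep : g' = ∑ q, i₂ (∑ p, c p q • e p) * k₂ (h q) :=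
    hg'.trans (hc.trans (repr_left e h c))
  have h1 := alg_two H T₁ T₂ hC hδ0.le hP f hf hL0 t₁ t₂ _ h hh hrep hg'M
  have h2 := N_le_Fin T₁.trD hf
  have h3 := N_le_Fin T₂.trD hg'M
  have h4 := SA_le_Fin T₂.trD i₂ F g g' hgg'
  rw [← hs] at h4
  have h5 : cm (j₁ f) (j₂ g) = cm (j₁ f) (j₂ g') + cm (j₁ f) (j₂ (g - g')) := by
    unfold cm
    rw [map_sub]
    noncomm_ring
  have h6 := N_add_le H.tens.trD (cm (j₁ f) (j₂ g')) (cm (j₁ f) (j₂ (g - g')))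
  rw [← h5] at h6
  have h7 := N_cm_le'_MainZ H.tens.trD (j₁ f) (j₂ (g - g'))
  rw [H.N_j] at h7
  have h8 : 4 * ‖j₁ f‖ ^ 2 * N τD₂ (g - g') ≤ 4 * K ^ 2 * η := by
    have h9 : ‖j₁ f‖ ^ 2 ≤ K ^ 2 := pow_le_pow_left₀ (norm_nonneg _)
      ((NonUnitalStarAlgHom.norm_apply_le j₁ f).trans hf) 2
    exact mul_le_mul (by linarith) hgg' (N_nonneg T₂.trD _) (by positivity)
  have h10 : 2 * L * δ * N τD₁ f + 2 * L * δ * (4 * K ^ 2 * (τ₁ 1).re) * N τD₂ g' ≤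
      2 * L * δ * c₁ := by
    have a1 := mul_le_mul_of_nonneg_left h2 (show 0 ≤ 2 * L * δ by positivity)
    have a2 := mul_le_mul_of_nonneg_left h3
      (show 0 ≤ 2 * L * δ * (4 * K ^ 2 * (τ₁ 1).re) by positivity)
    rw [hc₁]
    linarith
  have h11 : 8 * K ^ 2 * (τ₁ 1).re / L ^ 2 * (3 * (M ^ 2 * (τ₂ 1).re) * N τD₂ g') ≤
      c₂ / L ^ 2 := by
    have a1 := mul_le_mul_of_nonneg_left h3
      (show 0 ≤ 8 * K ^ 2 * (τ₁ 1).re / L ^ 2 * (3 * (M ^ 2 * (τ₂ 1).re)) by positivity)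
    have e1 : c₂ / L ^ 2 = 8 * K ^ 2 * (τ₁ 1).re / L ^ 2 * (3 * (M ^ 2 * (τ₂ 1).re)) *
        (M ^ 2 * N τD₂ 1) := by
      rw [hc₂]
      ring
    rw [e1]
    linarith
  have h12 : 2 * L * C * (8 * K ^ 2 * (τ₁ 1).re) * SA τD₂ i₂ F g' ≤
      c₃ * (2 * SA τD₂ i₂ F g + 16 * s * η) := by
    rw [hc₃]
    exact mul_le_mul_of_nonneg_left h4 (by positivity)
  have h13 : 2 * L * (C * ((8 * L ^ 2 + 1) * SA τD₁ i₁ F f)) = c₄ * SA τD₁ i₁ F f := by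
    rw [hc₄]
    ring
  have p1 : 0 ≤ c₃ * SA τD₁ i₁ F f := mul_nonneg hc₃0 (SA_nonneg T₁.trD F f)
  have p2 : 0 ≤ c₄ * SA τD₂ i₂ F g := mul_nonneg hc₄0 (SA_nonneg T₂.trD F g)
  linarith

/-- Two partners, sequences. -/
theorem two_seq (H : Tri τD₁ τ₂ τD₂ τE i₁ i₂ k₂ j₁ kE j₂) (T₁ : Tens τA τ₁ τD₁ i₁ k₁)
    (hd₁ : Dense2 τD₁ i₁ k₁) (T₂ : Tens τA τ₂ τD₂ i₂ k₂) (hd₂ : Dense2 τD₂ i₂ k₂)
    (hA : Fac τA) (hf₁ : ∀ x : B₁, N τ₁ x = 0 → x = 0) (hf₂ : ∀ x : B₂, N τ₂ x = 0 → x = 0)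
    (sA : Sep τA) (mA : ¬ McDuff τA) {f : ℕ → D₁} {g : ℕ → D₂} {K : ℝ}
    (hf : ∀ n, ‖f n‖ ≤ K) (hg : ∀ n, ‖g n‖ ≤ K)
    (cf : ∀ u : A, Tendsto (fun n => N τD₁ (cm (f n) (i₁ u))) atTop (𝓝 0))
    (cg : ∀ u : A, Tendsto (fun n => N τD₂ (cm (g n) (i₂ u))) atTop (𝓝 0)) :
    Tendsto (fun n => N τE (cm (j₁ (f n)) (j₂ (g n)))) atTop (𝓝 0) := by
  rw [Metric.tendsto_atTop]
  intro ε hε
  obtain ⟨F, C, hC, h⟩ := two_factor H T₁ hd₁ T₂ hd₂ hA hf₁ hf₂ sA mA (half_pos hε) K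
  have h1 : Tendsto (fun n => C * (SA τD₁ i₁ F (f n) + SA τD₂ i₂ F (g n))) atTop (𝓝 0) := by
    have h2 := ((SA_tendsto_OneSided T₁.trD cf F).add
      (SA_tendsto_OneSided T₂.trD cg F)).const_mul C
    rwa [add_zero, mul_zero] at h2
  obtain ⟨n₀, hn₀⟩ := (Metric.tendsto_atTop.1 h1) (ε / 2) (half_pos hε)
  refine ⟨n₀, fun n hn => ?_⟩
  have h3 := hn₀ n hn
  rw [Real.dist_eq, sub_zero] at h3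
  have h4 := (le_abs_self _).trans_lt h3
  rw [Real.dist_eq, sub_zero, abs_of_nonneg (N_nonneg H.tens.trD _)]
  have h5 := h (f n) (g n) (hf n) (hg n)
  linarith

end Pool.McT
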