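import Pool.Agent.McT.PTb
import Pool.Agent.McT.PT
import Pool.Agent.McT.MatCfc

/-! Truncation by functional calculus. -/

set_option autoImplicit false

namespace Pool.McT

variable {A : Type*} [CStarAlgebra A] {τ : A →ₗ[ℂ] ℂ}

theorem N_cfc_eq_Trn (h : A) {f : ℝ → ℝ} (hf : Continuous f) :
    N τ (cfc f h) = (τ (cfc (fun s => f s * f s) h)).re := by
  unfold N
  rw [cfc_mul _ _ h hf.continuousOn hf.continuousOn]
  have h1 : star (cfc f h) = cfc f h := (cfc_predicate f h : IsSelfAdjoint _)
  rw [h1]

theorem N_cfc_le (hτ : IsTr τ) {h : A} (hh : IsSelfAdjoint h) {f g : ℝ → ℝ} (hf : Continuous f)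
    (hg : Continuous g) (hfg : ∀ s, |s| ≤ ‖h‖ → f s ^ 2 ≤ g s ^ 2) :
    N τ (cfc f h) ≤ N τ (cfc g h) := by
  have h1 := tau_cfc_pos hτ hh (1 : A) (e := fun s => g s * g s - f s * f s)
    (e' := fun _ => 1) (by fun_prop) continuous_const
    (fun s hs => by have := hfg s hs; nlinarith) (fun s _ => zero_le_one)
  rw [cfc_const_one ℝ h, star_one, mul_one, mul_one, mul_one,
    cfc_sub (fun s => g s * g s) (fun s => f s * f s) h (by fun_prop) (by fun_prop), map_sub,
    Complex.sub_re] at h1
  rw [N_cfc_eq_Trn h hf, N_cfc_eq_Trn h hg]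
  linarith

/-- The clamp. -/
noncomputable def clp (L s : ℝ) : ℝ := max (-L) (min L s)

theorem clp_cont (L : ℝ) : Continuous (clp L) := by
  unfold clp
  fun_prop

theorem clp_abs {L : ℝ} (hL : 0 ≤ L) (s : ℝ) : |clp L s| ≤ L := by
  unfold clp
  rw [abs_le]
  exact ⟨le_max_left _ _, max_le (by linarith) (min_le_left _ _)⟩

theorem clp_odd {L : ℝ} (hL : 0 ≤ L) (s : ℝ) : clp L (-s) = -clp L s := by
  unfold clp
  rcases le_total L s with h | h
  · rw [min_eq_left h, min_eq_right (by linarith), max_eq_left (by linarith),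
      max_eq_right (by linarith)]
  · rcases le_total s (-L) with h' | h'
    · rw [min_eq_right h, min_eq_left (by linarith), max_eq_right (by linarith),
        max_eq_left h', neg_neg]
    · rw [min_eq_right h, min_eq_right (by linarith), max_eq_right (by linarith),
        max_eq_right h']

theorem clp_lip (L s r : ℝ) : (clp L s - clp L r) ^ 2 ≤ (s - r) ^ 2 := by
  have h1 : |min L s - min L r| ≤ |s - r| := by
    have h := abs_min_sub_min_le_max L s L r
    rwa [sub_self, abs_zero, max_eq_right (abs_nonneg _)] at h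
  have h : |clp L s - clp L r| ≤ |s - r| := by
    unfold clp
    rw [max_comm (-L), max_comm (-L)]
    exact (abs_max_sub_max_le_abs _ _ _).trans h1
  exact sq_le_sq.2 h

theorem clp_of_le {L s : ℝ} (h : |s| ≤ L) : clp L s = s := by
  unfold clp
  rw [abs_le] at h
  rw [min_eq_right h.2, max_eq_right h.1]

theorem clp_sub_sq {L : ℝ} (hL : 0 ≤ L) (s : ℝ) : (L * (s - clp L s)) ^ 2 ≤ (s * s) ^ 2 := by
  rcases le_total |s| L with h | h
  · rw [clp_of_le h, sub_self, mul_zero, zero_pow two_ne_zero]
    exact sq_nonneg _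
  · have h1 : |s - clp L s| ≤ |s| := by
      rcases le_total 0 s with h0 | h0
      · rw [abs_of_nonneg h0] at h
        have h2 : clp L s = L := by
          unfold clp
          rw [min_eq_left h, max_eq_right (by linarith)]
        rw [h2, abs_of_nonneg (by linarith), abs_of_nonneg h0]
        linarith
      · rw [abs_of_nonpos h0] at h
        have h2 : clp L s = -L := by
          unfold clp
          rw [min_eq_right (by linarith), max_eq_left (by linarith)]
        rw [h2, abs_of_nonpos (by linarith), abs_of_nonpos h0]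
        linarith
    rw [sq_le_sq, abs_mul, abs_mul, abs_of_nonneg hL]
    exact mul_le_mul h h1 (abs_nonneg _) (abs_nonneg _)

/-- `X` = `G` cut off at the height `L`. -/
theorem exists_trn (hτ : IsTr τ) (G : A) {L : ℝ} (hL : 0 ≤ L) :
    ∃ X : A, ‖X‖ ≤ L ∧ L ^ 2 * N τ (G - X) ≤ N τ (star G * G) ∧ N τ X ≤ N τ G ∧
      ∀ u : A, N τ (cm X u) + N τ (cm (star X) u) ≤ N τ (cm G u) + N τ (cm (star G) u) := by
  have hH : IsSelfAdjoint (XX G) := XX_selfAdjoint G
  obtain ⟨M, hM⟩ : ∃ M : M2 A, M = cfc (clp L) (XX G) := ⟨_, rfl⟩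
  have hMs : star M = M := by
    rw [hM]
    exact (cfc_predicate (clp L) (XX G) : IsSelfAdjoint _)
  obtain ⟨h00, h11⟩ := cfc_odd G (clp_cont L) (fun s => clp_odd hL s)
  rw [← hM] at h00 h11
  have hMX : M = XX (ent M 0 1) := by
    refine ext2 h00 rfl ?_ h11
    show ent M 1 0 = star (ent M 0 1)
    rw [← ent_star, hMs]
  have hid : XX G = cfc (fun s : ℝ => s) (XX G) := (cfc_id' ℝ (XX G)).symm
  refine ⟨ent M 0 1, ?_, ?_, ?_, ?_⟩
  · refine (norm_ent_le M 0 1).trans ?_
    rw [hM]
    exact norm_cfc_le hL fun s _ => by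
      rw [Real.norm_eq_abs]
      exact clp_abs hL s
  · have h1 : XX G - M = XX (G - ent M 0 1) := by
      rw [hMX]
      refine ext2 ?_ ?_ ?_ ?_ <;> rw [ent_sub]
      · show (0 : A) - 0 = 0
        rw [sub_zero]
      · rfl
      · show star G - star (ent M 0 1) = star (G - ent M 0 1)
        rw [star_sub]
      · show (0 : A) - 0 = 0
        rw [sub_zero]
    have h2 : (L : ℂ) • (XX G - M) = cfc (fun s => L * (s - clp L s)) (XX G) := by
      rw [cfc_const_mul L (fun s => s - clp L s) (XX G)
        (by have := clp_cont L; fun_prop), cfc_sub (fun s => s) (clp L) (XX G)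
        (by fun_prop) (clp_cont L).continuousOn, ← hid, ← hM]
      rfl
    have h3 : XX G * XX G = cfc (fun s : ℝ => s * s) (XX G) := by
      rw [cfc_mul (fun s : ℝ => s) (fun s : ℝ => s) (XX G) (by fun_prop) (by fun_prop), ← hid]
    have h4 := N_cfc_le (isTr_tr2 hτ) hH (f := fun s => L * (s - clp L s))
      (g := fun s : ℝ => s * s) (by have := clp_cont L; fun_prop) (by fun_prop)
      (fun s _ => clp_sub_sq hL s)
    rw [← h2, ← h3, N_smul, h1, N_XX hτ, Complex.norm_real, Real.norm_eq_abs, sq_abs,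
      XX_mul_XX, N_tr2 hτ] at h4
    have e1 : ent (mk2 (G * star G) 0 0 (star G * G)) 0 0 = G * star G := rfl
    have e2 : ent (mk2 (G * star G) 0 0 (star G * G)) 0 1 = 0 := rfl
    have e3 : ent (mk2 (G * star G) 0 0 (star G * G)) 1 0 = 0 := rfl
    have e4 : ent (mk2 (G * star G) 0 0 (star G * G)) 1 1 = star G * G := rfl
    have e5 : N τ (G * star G) = N τ (star G * G) := by
      unfold N
      simp only [star_mul, star_star]
      have h : τ (G * star G * (G * star G)) = τ (star G * G * (star G * G)) := by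
        rw [mul_assoc, hτ.comm]
        congr 1
        simp only [mul_assoc]
      rw [h]
    rw [e1, e2, e3, e4, N_zero, e5] at h4
    linarith
  · have h4 := N_cfc_le (isTr_tr2 hτ) hH (f := clp L) (g := fun s : ℝ => s) (clp_cont L)
      (by fun_prop) (fun s _ => by
        have h := clp_lip L s 0
        have h0 : clp L 0 = 0 := clp_of_le (by simpa using hL)
        rw [h0, sub_zero, sub_zero] at h
        exact h)
    rw [← hid, ← hM, hMX, N_XX hτ, N_XX hτ] at h4
    linarith
  · intro u
    have h4 := comm_sum (isTr_tr2 hτ) hH (UU u) (ι := Unit) (fun _ => clp L)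
      (fun _ => clp_cont L) (fun _ => 1) 1 (fun s r _ _ => by
        have := clp_lip L s r
        simpa using this)
    simp only [Finset.univ_unique, Finset.sum_singleton, one_mul] at h4
    rw [← hM, N_cm_XX hτ, hMX, N_cm_XX hτ] at h4
    exact h4

end Pool.McT
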