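import Pool.Agent.McT.P.Dense
import Pool.Agent.McT.Q.Trn

/-! Kaplansky's density theorem for the algebraic tensor product. -/

set_option autoImplicit false

namespace Pool.McT

section Lip
variable {A : Type*} [CStarAlgebra A] {τ : A →ₗ[ℂ] ℂ}

private theorem abs_le_Kap {h : A} {s : ℝ} (hs : s ∈ spectrum ℝ h) : |s| ≤ ‖h‖ := by
  rcases subsingleton_or_nontrivial A with h' | h'
  · exact absurd hs (by simp [spectrum.of_subsingleton])
  · have := spectrum.norm_le_norm_of_mem hs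
    rwa [Real.norm_eq_abs] at this

private theorem pow_Kap (x y : A) (n : ℕ) : (mk2 x 0 0 y) ^ n = mk2 (x ^ n) 0 0 (y ^ n) := by
  induction n with
  | zero =>
    simp only [pow_zero]
    exact ext2 rfl rfl rfl rfl
  | succ n ih =>
    rw [pow_succ, ih]
    refine ext2 ?_ ?_ ?_ ?_ <;> rw [ent_mul]
    · show x ^ n * x + 0 * 0 = x ^ (n + 1)
      rw [mul_zero, add_zero, pow_succ]
    · show x ^ n * 0 + 0 * y = 0
      simp
    · show 0 * x + y ^ n * 0 = 0
      simp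
    · show 0 * 0 + y ^ n * y = y ^ (n + 1)
      rw [mul_zero, zero_add, pow_succ]

private theorem ent_sum_Kap {n : ℕ} (c : ℕ → ℝ) (M : ℕ → M2 A) (i j : Fin 2) :
    ent (∑ k ∈ Finset.range n, c k • M k) i j = ∑ k ∈ Finset.range n, c k • ent (M k) i j := by
  induction n with
  | zero => rfl
  | succ n ih =>
    rw [Finset.sum_range_succ, Finset.sum_range_succ, ent_add, ih]
    rfl

private theorem aeval_Kap (x y : A) (p : Polynomial ℝ) :
    ent (Polynomial.aeval (mk2 x 0 0 y) p) 0 0 = Polynomial.aeval x p ∧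
      ent (Polynomial.aeval (mk2 x 0 0 y) p) 0 1 = 0 ∧
      ent (Polynomial.aeval (mk2 x 0 0 y) p) 1 0 = 0 ∧
      ent (Polynomial.aeval (mk2 x 0 0 y) p) 1 1 = Polynomial.aeval y p := by
  rw [Polynomial.aeval_eq_sum_range, Polynomial.aeval_eq_sum_range,
    Polynomial.aeval_eq_sum_range, ent_sum_Kap, ent_sum_Kap, ent_sum_Kap, ent_sum_Kap]
  simp only [pow_Kap]
  refine ⟨rfl, ?_, ?_, rfl⟩
  · refine Finset.sum_eq_zero fun k _ => ?_
    show _ • (0 : A) = 0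
    rw [smul_zero]
  · refine Finset.sum_eq_zero fun k _ => ?_
    show _ • (0 : A) = 0
    rw [smul_zero]

private theorem near_Kap {E : Type*} [CStarAlgebra E] {h : E} (hh : IsSelfAdjoint h) {R : ℝ}
    (hR : ‖h‖ ≤ R) {f : ℝ → ℝ} (hf : Continuous f) {η : ℝ} (hη : 0 < η) {p : Polynomial ℝ}
    (hp : ∀ s ∈ Set.Icc (-R) R, |p.eval s - f s| < η) :
    ‖Polynomial.aeval h p - cfc f h‖ ≤ η := by
  rw [← cfc_polynomial p h hh, ← cfc_sub p.eval f h p.continuous.continuousOn hf.continuousOn]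
  refine norm_cfc_le hη.le fun s hs => ?_
  rw [Real.norm_eq_abs]
  exact (hp s (abs_le.1 ((abs_le_Kap hs).trans hR))).le

private theorem eq_Kap {E : Type*} [CStarAlgebra E] {u v : E}
    (h : ∀ η : ℝ, 0 < η → ‖u - v‖ ≤ 2 * η) : u = v := by
  rw [← sub_eq_zero, ← norm_eq_zero]
  refine le_antisymm (le_of_forall_pos_le_add fun ε hε => ?_) (norm_nonneg _)
  have := h (ε / 2) (by positivity)
  linarith

private theorem cfc_Kap {x y : A} (hx : IsSelfAdjoint x) (hy : IsSelfAdjoint y)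
    (hh : IsSelfAdjoint (mk2 x 0 0 y)) {f : ℝ → ℝ} (hf : Continuous f) :
    cfc f (mk2 x 0 0 y) = mk2 (cfc f x) 0 0 (cfc f y) := by
  obtain ⟨R, hR⟩ : ∃ R : ℝ, R = max ‖mk2 x 0 0 y‖ (max ‖x‖ ‖y‖) := ⟨_, rfl⟩
  have r0 : ‖mk2 x 0 0 y‖ ≤ R := by rw [hR]; exact le_max_left _ _
  have r1 : ‖x‖ ≤ R := by rw [hR]; exact (le_max_left _ _).trans (le_max_right _ _)
  have r2 : ‖y‖ ≤ R := by rw [hR]; exact (le_max_right _ _).trans (le_max_right _ _)
  have key : ∀ (i j : Fin 2) (v : A), (∀ (η : ℝ) (p : Polynomial ℝ), 0 < η →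
      (∀ s ∈ Set.Icc (-R) R, |p.eval s - f s| < η) →
        ‖ent (Polynomial.aeval (mk2 x 0 0 y) p) i j - v‖ ≤ η) →
      ent (cfc f (mk2 x 0 0 y)) i j = v := by
    intro i j v hv
    refine eq_Kap fun η hη => ?_
    obtain ⟨p, hp⟩ := exists_polynomial_near_of_continuousOn (-R) R f hf.continuousOn η hη
    have h1 := hv η p hη hp
    have h2 := near_Kap hh r0 hf hη hp
    have h3 := norm_ent_le (Polynomial.aeval (mk2 x 0 0 y) p - cfc f (mk2 x 0 0 y)) i j
    rw [ent_sub] at h3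
    have e : ent (cfc f (mk2 x 0 0 y)) i j - v =
        (ent (Polynomial.aeval (mk2 x 0 0 y) p) i j - v) -
        (ent (Polynomial.aeval (mk2 x 0 0 y) p) i j - ent (cfc f (mk2 x 0 0 y)) i j) := by abel
    rw [e]
    refine (norm_sub_le _ _).trans ?_
    linarith
  refine ext2 (key 0 0 _ fun η p hη hp => ?_) (key 0 1 _ fun η p hη hp => ?_)
    (key 1 0 _ fun η p hη hp => ?_) (key 1 1 _ fun η p hη hp => ?_)
  · rw [(aeval_Kap x y p).1]
    exact near_Kap hx r1 hf hη hp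
  · rw [(aeval_Kap x y p).2.1]
    show ‖(0 : A) - 0‖ ≤ η
    rw [sub_zero, norm_zero]
    exact hη.le
  · rw [(aeval_Kap x y p).2.2.1]
    show ‖(0 : A) - 0‖ ≤ η
    rw [sub_zero, norm_zero]
    exact hη.le
  · rw [(aeval_Kap x y p).2.2.2]
    exact near_Kap hy r2 hf hη hp

/-- Lipschitz estimate for the clamp and two selfadjoint elements. -/
theorem N_clp_sub_le (hτ : IsTr τ) {x y : A} (hx : IsSelfAdjoint x) (hy : IsSelfAdjoint y)
    (L : ℝ) : N τ (cfc (clp L) x - cfc (clp L) y) ≤ N τ (x - y) := by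
  have hd : IsSelfAdjoint (mk2 x 0 0 y) := by
    show star (mk2 x 0 0 y) = mk2 x 0 0 y
    refine ext2 ?_ ?_ ?_ ?_ <;> rw [ent_star]
    · exact hx
    · exact star_zero A
    · exact star_zero A
    · exact hy
  have h3 := comm_sum (isTr_tr2 hτ) hd E01 (ι := Unit) (fun _ => clp L)
    (fun _ => clp_cont L) (fun _ => 1) 1 (fun s r _ _ => by
      have := clp_lip L s r
      simpa using this)
  simp only [Finset.univ_unique, Finset.sum_singleton, one_mul] at h3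
  rw [cfc_Kap hx hy hd (clp_cont L), N_cm_E01 hτ _ rfl rfl, N_cm_E01 hτ _ rfl rfl] at h3
  exact h3

end Lip

variable {A B D : Type*} [CStarAlgebra A] [CStarAlgebra B] [CStarAlgebra D]
  {τA : A →ₗ[ℂ] ℂ} {τB : B →ₗ[ℂ] ℂ} {τD : D →ₗ[ℂ] ℂ} {iA : A →⋆ₐ[ℂ] D} {iB : B →⋆ₐ[ℂ] D}

/-- The algebraic tensor product. -/
noncomputable def TU (iA : A →⋆ₐ[ℂ] D) (iB : B →⋆ₐ[ℂ] D) : Submodule ℂ D :=
  Submodule.span ℂ (Set.range fun p : A × B => iA p.1 * iB p.2)

theorem TU_rep {x : D} (hx : x ∈ TU iA iB) :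
    ∃ (k : ℕ) (a : Fin k → A) (b : Fin k → B), x = ∑ i, iA (a i) * iB (b i) := by
  obtain ⟨k, f, g, h⟩ := Submodule.mem_span_set'.1 hx
  have hg : ∀ i, ∃ p : A × B, iA p.1 * iB p.2 = (g i : D) := fun i => (g i).2
  choose p hp using hg
  refine ⟨k, fun i => f i • (p i).1, fun i => (p i).2, ?_⟩
  rw [← h]
  refine Finset.sum_congr rfl fun i _ => ?_
  rw [← hp i, map_smul, smul_mul_assoc]

theorem TU_sum {k : ℕ} (a : Fin k → A) (b : Fin k → B) :
    ∑ i, iA (a i) * iB (b i) ∈ TU iA iB :=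
  Submodule.sum_mem _ fun i _ => Submodule.subset_span ⟨(a i, b i), rfl⟩

theorem TU_mul (T : Tens τA τB τD iA iB) {x y : D} (hx : x ∈ TU iA iB) (hy : y ∈ TU iA iB) :
    x * y ∈ TU iA iB := by
  have h1 : TU iA iB * TU iA iB ≤ TU iA iB := by
    unfold TU
    rw [Submodule.span_mul_span]
    refine Submodule.span_mono ?_
    rintro _ ⟨_, ⟨p, rfl⟩, _, ⟨q, rfl⟩, rfl⟩
    refine ⟨(p.1 * q.1, p.2 * q.2), ?_⟩
    show iA (p.1 * q.1) * iB (p.2 * q.2) = iA p.1 * iB p.2 * (iA q.1 * iB q.2)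
    rw [map_mul, map_mul, mul_assoc, mul_assoc, ← mul_assoc (iB p.2), ← T.comm q.1 p.2,
      mul_assoc]
  exact h1 (Submodule.mul_mem_mul hx hy)

theorem TU_one : (1 : D) ∈ TU iA iB :=
  Submodule.subset_span ⟨(1, 1), by simp⟩

theorem TU_star (T : Tens τA τB τD iA iB) {x : D} (hx : x ∈ TU iA iB) : star x ∈ TU iA iB := by
  obtain ⟨k, a, b, rfl⟩ := TU_rep hx
  rw [star_sum]
  refine Submodule.sum_mem _ fun i _ => Submodule.subset_span ⟨(star (a i), star (b i)), ?_⟩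
  show iA (star (a i)) * iB (star (b i)) = _
  rw [star_mul, ← map_star, ← map_star, T.comm]

theorem TU_aeval (T : Tens τA τB τD iA iB) {y : D} (hy : y ∈ TU iA iB) (p : Polynomial ℝ) :
    Polynomial.aeval y p ∈ TU iA iB := by
  rw [Polynomial.aeval_eq_sum_range]
  refine Submodule.sum_mem _ fun i _ => ?_
  have h1 : ∀ n : ℕ, y ^ n ∈ TU iA iB := by
    intro n
    induction n with
    | zero => rw [pow_zero]; exact TU_one
    | succ n ih => rw [pow_succ]; exact TU_mul T ih hy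
  exact Submodule.smul_mem _ ((p.coeff i : ℝ) : ℂ) (h1 i)

theorem TU_cfc (T : Tens τA τB τD iA iB) {y : D} (hy : y ∈ TU iA iB) (hs : IsSelfAdjoint y)
    {f : ℝ → ℝ} (hf : Continuous f) {ε : ℝ} (hε : 0 < ε) :
    ∃ z ∈ TU iA iB, ‖z - cfc f y‖ ≤ ε := by
  obtain ⟨p, hp⟩ := exists_polynomial_near_of_continuousOn (-‖y‖) ‖y‖ f hf.continuousOn ε hε
  refine ⟨Polynomial.aeval y p, TU_aeval T hy p, ?_⟩
  rw [← cfc_polynomial p y hs, ← cfc_sub p.eval f y p.continuous.continuousOn hf.continuousOn]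
  refine norm_cfc_le hε.le fun s hs' => ?_
  rw [Real.norm_eq_abs]
  exact (hp s (abs_le.1 (abs_le_Kap hs'))).le

theorem kap_sa (T : Tens τA τB τD iA iB) (hd : Dense2 τD iA iB) {g : D}
    (hg : IsSelfAdjoint g) {K : ℝ} (hK : ‖g‖ ≤ K) {ε : ℝ} (hε : 0 < ε) :
    ∃ z ∈ TU iA iB, ‖z‖ ≤ K + 1 / 2 ∧ N τD (g - z) ≤ ε := by
  have hK0 : 0 ≤ K := (norm_nonneg g).trans hK
  have hN1 := N_nonneg T.trD (1 : D)
  obtain ⟨k, a, b, hab⟩ := hd g (ε / 4) (by positivity)
  obtain ⟨y₀, hy₀⟩ : ∃ y₀ : D, y₀ = ∑ i, iA (a i) * iB (b i) := ⟨_, rfl⟩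
  rw [← hy₀] at hab
  have hU₀ : y₀ ∈ TU iA iB := by
    rw [hy₀]
    exact TU_sum a b
  obtain ⟨y, hy⟩ : ∃ y : D, y = (1 / 2 : ℂ) • (y₀ + star y₀) := ⟨_, rfl⟩
  have hU : y ∈ TU iA iB := by
    rw [hy]
    exact Submodule.smul_mem _ _ (Submodule.add_mem _ hU₀ (TU_star T hU₀))
  have hys : IsSelfAdjoint y := by
    show star y = y
    rw [hy, star_smul, star_add, star_star, add_comm (star y₀)]
    congr 1
    simp
  have hgy : N τD (g - y) ≤ ε / 4 := by
    have e1 : g - y = (1 / 2 : ℂ) • ((g - y₀) + star (g - y₀)) := by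
      rw [hy, star_sub, hg.star_eq]
      have : g = (1 / 2 : ℂ) • (g + g) := by
        rw [← two_smul ℂ g, smul_smul]
        norm_num
      nth_rewrite 1 [this]
      rw [← smul_sub]
      congr 1
      abel
    have h1 := N_add_le T.trD (g - y₀) (star (g - y₀))
    rw [N_star T.trD] at h1
    rw [e1, N_smul]
    have e2 : ‖(1 / 2 : ℂ)‖ ^ 2 = 1 / 4 := by norm_num
    rw [e2]
    linarith
  have hgc : cfc (clp K) g = g := by
    have h1 : cfc (clp K) g = cfc (fun s : ℝ => s) g := by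
      refine cfc_congr fun s hs => ?_
      exact clp_of_le ((abs_le_Kap hs).trans hK)
    rw [h1, cfc_id' ℝ g]
  have h2 := N_clp_sub_le T.trD hg hys K
  rw [hgc] at h2
  obtain ⟨η, hη⟩ : ∃ η : ℝ, η = min (1 / 2) (ε / (4 * (N τD (1 : D) + 1))) := ⟨_, rfl⟩
  have hη0 : 0 < η := by
    rw [hη]
    positivity
  have hη1 : η ≤ 1 / 2 := by
    rw [hη]
    exact min_le_left _ _
  have hη2 : η * (4 * (N τD (1 : D) + 1)) ≤ ε := by
    rw [← le_div_iff₀ (by positivity), hη]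
    exact min_le_right _ _
  obtain ⟨z, hz, hzc⟩ := TU_cfc T hU hys (clp_cont K) hη0
  refine ⟨z, hz, ?_, ?_⟩
  · have h3 : ‖cfc (clp K) y‖ ≤ K := norm_cfc_le hK0 fun s _ => by
      rw [Real.norm_eq_abs]
      exact clp_abs hK0 s
    have h4 : ‖z‖ ≤ ‖z - cfc (clp K) y‖ + ‖cfc (clp K) y‖ := by
      have := norm_add_le (z - cfc (clp K) y) (cfc (clp K) y)
      rwa [sub_add_cancel] at this
    linarith
  · have h3 : N τD (z - cfc (clp K) y) ≤ η ^ 2 * N τD 1 := by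
      have h4 := N_mul_le_left T.trD (z - cfc (clp K) y) 1
      rw [mul_one] at h4
      refine h4.trans (mul_le_mul_of_nonneg_right ?_ hN1)
      exact pow_le_pow_left₀ (norm_nonneg _) hzc 2
    have e1 : g - z = (g - cfc (clp K) y) + -(z - cfc (clp K) y) := by abel
    have h5 := N_add_le T.trD (g - cfc (clp K) y) (-(z - cfc (clp K) y))
    rw [N_neg, ← e1] at h5
    have h6 : η ^ 2 * N τD 1 ≤ η * N τD 1 := by
      refine mul_le_mul_of_nonneg_right ?_ hN1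
      nlinarith
    nlinarith

/-- Kaplansky. -/
theorem kap (T : Tens τA τB τD iA iB) (hd : Dense2 τD iA iB) {g : D} {K : ℝ} (hK : ‖g‖ ≤ K)
    {ε : ℝ} (hε : 0 < ε) :
    ∃ (k : ℕ) (a : Fin k → A) (b : Fin k → B), ‖∑ i, iA (a i) * iB (b i)‖ ≤ 2 * K + 1 ∧
      N τD (g - ∑ i, iA (a i) * iB (b i)) ≤ ε := by
  obtain ⟨g₁, hg₁⟩ : ∃ g₁ : D, g₁ = (1 / 2 : ℂ) • (g + star g) := ⟨_, rfl⟩
  obtain ⟨g₂, hg₂⟩ : ∃ g₂ : D, g₂ = (-Complex.I / 2 : ℂ) • (g - star g) := ⟨_, rfl⟩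
  have s₁ : IsSelfAdjoint g₁ := by
    show star g₁ = g₁
    rw [hg₁, star_smul, star_add, star_star, add_comm (star g)]
    congr 1
    simp
  have s₂ : IsSelfAdjoint g₂ := by
    show star g₂ = g₂
    rw [hg₂, star_smul, star_sub, star_star]
    have e1 : star g - g = -(g - star g) := by abel
    have e2 : star (-Complex.I / 2 : ℂ) = -(-Complex.I / 2 : ℂ) := by
      simp [neg_div]
    rw [e1, e2, smul_neg, neg_smul, neg_neg]
  have hdec : g = g₁ + Complex.I • g₂ := by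
    rw [hg₁, hg₂, smul_smul]
    have e1 : Complex.I * (-Complex.I / 2) = (1 / 2 : ℂ) := by
      rw [mul_div_assoc', mul_neg, Complex.I_mul_I]
      norm_num
    rw [e1, ← smul_add]
    have e2 : g + star g + (g - star g) = (2 : ℂ) • g := by
      rw [two_smul]
      abel
    rw [e2, smul_smul]
    norm_num
  have n₁ : ‖g₁‖ ≤ K := by
    rw [hg₁, norm_smul]
    have h1 := norm_add_le g (star g)
    rw [norm_star] at h1
    norm_num
    linarith
  have n₂ : ‖g₂‖ ≤ K := by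
    rw [hg₂, norm_smul]
    have h1 := norm_sub_le g (star g)
    rw [norm_star] at h1
    norm_num
    linarith
  obtain ⟨z₁, u₁, m₁, a₁⟩ := kap_sa T hd s₁ n₁ (ε := ε / 4) (by positivity)
  obtain ⟨z₂, u₂, m₂, a₂⟩ := kap_sa T hd s₂ n₂ (ε := ε / 4) (by positivity)
  obtain ⟨k, a, b, hab⟩ := TU_rep (Submodule.add_mem _ u₁ (Submodule.smul_mem _ Complex.I u₂))
  refine ⟨k, a, b, ?_, ?_⟩
  · rw [← hab]
    refine (norm_add_le _ _).trans ?_
    rw [norm_smul, Complex.norm_I, one_mul]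
    linarith
  · rw [← hab]
    have e1 : g - (z₁ + Complex.I • z₂) = (g₁ - z₁) + Complex.I • (g₂ - z₂) := by
      rw [hdec, smul_sub]
      abel
    have h1 := N_add_le T.trD (g₁ - z₁) (Complex.I • (g₂ - z₂))
    rw [N_smul, Complex.norm_I, one_pow, one_mul] at h1
    rw [e1]
    linarith

end Pool.McT
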