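import Pool.Agent.McT.P.OneSided
import Pool.Agent.McT.Q.Avg
import Pool.Agent.McT.Q.Trn

/-! Quantitative form of `one_seq`. -/

set_option autoImplicit false

namespace Pool.McT

variable {A B D : Type*} [CStarAlgebra A] [CStarAlgebra B] [CStarAlgebra D]
  {τA : A →ₗ[ℂ] ℂ} {τB : B →ₗ[ℂ] ℂ} {τD : D →ₗ[ℂ] ℂ} {iA : A →⋆ₐ[ℂ] D} {iB : B →⋆ₐ[ℂ] D}

theorem SA_nonneg (hτ : IsTr τD) (F : Finset A) (f : D) : 0 ≤ SA τD iA F f := by
  unfold SA
  exact Finset.sum_nonneg fun u _ => add_nonneg (N_nonneg hτ _) (N_nonneg hτ _)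

/-- `[[f, X], u] = [[f, u], X] + [f, [X, u]]`. -/
theorem N_cmcm_le (T : Tens τA τB τD iA iB) (f : D) (X u : A) {K L : ℝ} (hf : ‖f‖ ≤ K)
    (hX : ‖X‖ ≤ L) :
    N τD (cm (cm f (iA X)) (iA u)) ≤ 8 * L ^ 2 * N τD (cm f (iA u)) +
      8 * K ^ 2 * (N τA (cm X u) * (τB 1).re) := by
  have e : cm (cm f (iA X)) (iA u) = cm (cm f (iA u)) (iA X) + cm f (iA (cm X u)) := by
    unfold cm
    rw [map_sub, map_mul, map_mul]
    noncomm_ring
  rw [e, ← N_iA_OneSided T]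
  have a1 := N_add_le T.trD (cm (cm f (iA u)) (iA X)) (cm f (iA (cm X u)))
  have a2 := N_cm_le_MainZ T.trD (cm f (iA u)) (iA X)
  have a3 := N_cm_le'_MainZ T.trD f (iA (cm X u))
  have hX' : ‖iA X‖ ≤ L := (NonUnitalStarAlgHom.norm_apply_le iA X).trans hX
  have a4 : ‖iA X‖ ^ 2 ≤ L ^ 2 := pow_le_pow_left₀ (norm_nonneg _) hX' 2
  have a5 : ‖f‖ ^ 2 ≤ K ^ 2 := pow_le_pow_left₀ (norm_nonneg _) hf 2
  have a6 := mul_le_mul_of_nonneg_right a4 (N_nonneg T.trD (cm f (iA u)))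
  have a7 := mul_le_mul_of_nonneg_right a5 (N_nonneg T.trD (iA (cm X u)))
  linarith

theorem SA_cm_le (T : Tens τA τB τD iA iB) (F : Finset A) (f : D) (X : A) {K L : ℝ}
    (hf : ‖f‖ ≤ K) (hX : ‖X‖ ≤ L) :
    SA τD iA F (star (cm f (iA X))) ≤ 8 * L ^ 2 * SA τD iA F f +
      8 * K ^ 2 * (τB 1).re * S τA F X := by
  unfold SA S
  rw [Finset.mul_sum, Finset.mul_sum, ← Finset.sum_add_distrib]
  refine Finset.sum_le_sum fun u _ => ?_
  have h1 := N_cmcm_le T f X u hf hX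
  have h2 := N_cmcm_le T (star f) (star X) u (K := K) (L := L) (by rwa [norm_star])
    (by rwa [norm_star])
  have e1 : star (cm f (iA X)) = -cm (star f) (iA (star X)) := by
    unfold cm
    rw [star_sub, star_mul, star_mul, map_star]
    abel
  have e2 : ∀ x : D, cm (-x) (iA u) = -cm x (iA u) := by
    intro x
    unfold cm
    noncomm_ring
  rw [star_star]
  have h3 : N τD (cm (star (cm f (iA X))) (iA u)) =
      N τD (cm (cm (star f) (iA (star X))) (iA u)) := by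
    rw [e1, e2, N_neg]
  rw [h3]
  linarith

theorem one_quant (T : Tens τA τB τD iA iB) {F : Finset A} {C δ : ℝ}
    (hC : 0 ≤ C) (hδ : 0 ≤ δ)
    (hP : ∀ (f g : D) (X : A), ‖X‖ ≤ 1 → ‖τD ((f * g - g * f) * iA X)‖ ≤
      δ * (N τD f + N τD g) + C * (SA τD iA F f + SA τD iA F g))
    (f : D) (X : A) {K L : ℝ} (hf : ‖f‖ ≤ K) (hX : ‖X‖ ≤ L) (hL : 0 < L) :
    N τD (cm f (iA X)) ≤ L * (δ * (4 * K ^ 2 * (τB 1).re * N τA X + N τD f) +
      C * ((8 * L ^ 2 + 1) * SA τD iA F f + 8 * K ^ 2 * (τB 1).re * S τA F X)) := by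
  have hY : ‖((L : ℝ) : ℂ)⁻¹ • X‖ ≤ 1 := by
    rw [norm_smul, norm_inv, Complex.norm_real, Real.norm_eq_abs, abs_of_pos hL,
      inv_mul_le_iff₀ hL, mul_one]
    exact hX
  have hne : ((L : ℝ) : ℂ) ≠ 0 := Complex.ofReal_ne_zero.2 hL.ne'
  obtain ⟨h, hh⟩ : ∃ h : D, h = star (cm f (iA X)) := ⟨_, rfl⟩
  have h3 : τD (star (cm f (iA X)) * cm f (iA X)) = τD ((h * f - f * h) * iA X) := by
    rw [← hh]
    have e1 : h * cm f (iA X) = h * f * iA X - h * iA X * f := by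
      unfold cm
      noncomm_ring
    have e2 : (h * f - f * h) * iA X = h * f * iA X - f * (h * iA X) := by
      noncomm_ring
    rw [e1, e2, map_sub, map_sub, T.trD.comm (h * iA X) f]
  have h4 : τD ((h * f - f * h) * iA X) =
      ((L : ℝ) : ℂ) * τD ((h * f - f * h) * iA (((L : ℝ) : ℂ)⁻¹ • X)) := by
    rw [map_smul, mul_smul_comm, map_smul, smul_eq_mul, ← mul_assoc, mul_inv_cancel₀ hne,
      one_mul]
  have h5 : N τD (cm f (iA X)) ≤ L * ‖τD ((h * f - f * h) * iA (((L : ℝ) : ℂ)⁻¹ • X))‖ := by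
    have e : N τD (cm f (iA X)) = (τD (star (cm f (iA X)) * cm f (iA X))).re := rfl
    rw [e, h3, h4]
    refine (Complex.re_le_norm _).trans ?_
    rw [norm_mul, Complex.norm_real, Real.norm_eq_abs, abs_of_pos hL]
  have h6 := hP h f _ hY
  have h7 : N τD h ≤ 4 * K ^ 2 * (τB 1).re * N τA X := by
    rw [hh, N_star T.trD]
    have a3 := N_cm_le'_MainZ T.trD f (iA X)
    have a5 : ‖f‖ ^ 2 ≤ K ^ 2 := pow_le_pow_left₀ (norm_nonneg _) hf 2
    have a7 := mul_le_mul_of_nonneg_right a5 (N_nonneg T.trD (iA X))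
    rw [N_iA_OneSided T] at a3 a7
    linarith
  have h8 := SA_cm_le T F f X hf hX
  rw [← hh] at h8
  refine h5.trans (mul_le_mul_of_nonneg_left (h6.trans (add_le_add
    (mul_le_mul_of_nonneg_left ?_ hδ) (mul_le_mul_of_nonneg_left ?_ hC))) hL.le)
  · linarith
  · linarith

end Pool.McT
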