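import Pool.Agent.McT.Q.Quant
import Pool.Agent.McT.Q.Kap

/-! Two partners. -/

set_option autoImplicit false

namespace Pool.McT

open Filter Topology

variable {A B₁ B₂ D₁ D₂ E : Type*} [CStarAlgebra A] [CStarAlgebra B₁] [CStarAlgebra B₂]
  [CStarAlgebra D₁] [CStarAlgebra D₂] [CStarAlgebra E]
  {τA : A →ₗ[ℂ] ℂ} {τ₁ : B₁ →ₗ[ℂ] ℂ} {τ₂ : B₂ →ₗ[ℂ] ℂ} {τD₁ : D₁ →ₗ[ℂ] ℂ}
  {τD₂ : D₂ →ₗ[ℂ] ℂ} {τE : E →ₗ[ℂ] ℂ}
  {i₁ : A →⋆ₐ[ℂ] D₁} {k₁ : B₁ →⋆ₐ[ℂ] D₁} {i₂ : A →⋆ₐ[ℂ] D₂} {k₂ : B₂ →⋆ₐ[ℂ] D₂}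
  {j₁ : D₁ →⋆ₐ[ℂ] E} {kE : B₂ →⋆ₐ[ℂ] E} {j₂ : D₂ →⋆ₐ[ℂ] E}

/-- `E = A ⊗ B₁ ⊗ B₂ = D₁ ⊗ B₂` and the embedding `j₂` of `D₂ = A ⊗ B₂`. -/
structure Tri (τD₁ : D₁ →ₗ[ℂ] ℂ) (τ₂ : B₂ →ₗ[ℂ] ℂ) (τD₂ : D₂ →ₗ[ℂ] ℂ) (τE : E →ₗ[ℂ] ℂ)
    (i₁ : A →⋆ₐ[ℂ] D₁) (i₂ : A →⋆ₐ[ℂ] D₂) (k₂ : B₂ →⋆ₐ[ℂ] D₂) (j₁ : D₁ →⋆ₐ[ℂ] E)
    (kE : B₂ →⋆ₐ[ℂ] E) (j₂ : D₂ →⋆ₐ[ℂ] E) : Prop where
  tens : Tens τD₁ τ₂ τE j₁ kE
  left : ∀ a, j₂ (i₂ a) = j₁ (i₁ a)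
  right : ∀ b, j₂ (k₂ b) = kE b
  tau : ∀ x, τE (j₂ x) = τD₂ x

theorem Tri.N_j (H : Tri τD₁ τ₂ τD₂ τE i₁ i₂ k₂ j₁ kE j₂) (x : D₂) :
    N τE (j₂ x) = N τD₂ x := by
  unfold N
  rw [← map_star, ← map_mul, H.tau]

/-- `N [f, g] = ∑ N [f, a_q]` for `g = ∑ a_q ⊗ e_q`, `e_q` orthonormal. -/
theorem Tri.N_cm_sum (H : Tri τD₁ τ₂ τD₂ τE i₁ i₂ k₂ j₁ kE j₂) (f : D₁) {n : ℕ}
    (a : Fin n → A) (e : Fin n → B₂)
    (he : ∀ p q, τ₂ (star (e p) * e q) = if p = q then 1 else 0) :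
    N τE (cm (j₁ f) (j₂ (∑ q, i₂ (a q) * k₂ (e q)))) = ∑ q, N τD₁ (cm f (i₁ (a q))) := by
  rw [← N_sum_tens H.tens _ e he]
  congr 1
  unfold cm
  rw [map_sum, Finset.mul_sum, Finset.sum_mul, ← Finset.sum_sub_distrib]
  refine Finset.sum_congr rfl fun q _ => ?_
  rw [map_mul, H.left, H.right, map_sub, map_mul, map_mul, sub_mul, mul_assoc, mul_assoc,
    mul_assoc, H.tens.comm f (e q)]

/-- The estimate for one element `x` of `A`. -/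
theorem pt_two (T₁ : Tens τA τ₁ τD₁ i₁ k₁) {F : Finset A} {C δ : ℝ} (hC : 0 ≤ C)
    (hδ : 0 ≤ δ)
    (hP : ∀ (f g : D₁) (X : A), ‖X‖ ≤ 1 → ‖τD₁ ((f * g - g * f) * i₁ X)‖ ≤
      δ * (N τD₁ f + N τD₁ g) + C * (SA τD₁ i₁ F f + SA τD₁ i₁ F g))
    (f : D₁) (x : A) {K L : ℝ} (hf : ‖f‖ ≤ K) (hL : 0 < L) (ht : 0 ≤ (τ₁ 1).re) :
    N τD₁ (cm f (i₁ x)) ≤ 2 * L * (δ * N τD₁ f + C * ((8 * L ^ 2 + 1) * SA τD₁ i₁ F f)) +
      (2 * L * δ * (4 * K ^ 2 * (τ₁ 1).re) * N τA x +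
        (2 * L * C * (8 * K ^ 2 * (τ₁ 1).re) * S τA F x +
          8 * K ^ 2 * (τ₁ 1).re / L ^ 2 * N τA (star x * x))) := by
  obtain ⟨X, h1, h2, h3, h4⟩ := exists_trn T₁.trA x hL.le
  have h5 := one_quant T₁ hC hδ hP f X hf h1 hL
  have e : cm f (i₁ x) = cm f (i₁ X) + cm f (i₁ (x - X)) := by
    unfold cm
    rw [map_sub]
    noncomm_ring
  have h6 := N_add_le T₁.trD (cm f (i₁ X)) (cm f (i₁ (x - X)))
  rw [← e] at h6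
  have h7 := N_cm_le'_MainZ T₁.trD f (i₁ (x - X))
  rw [N_iA_OneSided T₁] at h7
  have h8 : ‖f‖ ^ 2 ≤ K ^ 2 := pow_le_pow_left₀ (norm_nonneg _) hf 2
  have h9 : S τA F X ≤ S τA F x := Finset.sum_le_sum fun u _ => h4 u
  have h10 : N τA (x - X) ≤ N τA (star x * x) / L ^ 2 := by
    rw [le_div_iff₀ (by positivity)]
    linarith
  have h11 : 4 * ‖f‖ ^ 2 * (N τA (x - X) * (τ₁ 1).re) ≤
      4 * K ^ 2 * (N τA (star x * x) / L ^ 2 * (τ₁ 1).re) := by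
    refine mul_le_mul (by linarith) (mul_le_mul_of_nonneg_right h10 ht)
      (mul_nonneg (N_nonneg T₁.trA _) ht) (by positivity)
  have h12 : L * (δ * (4 * K ^ 2 * (τ₁ 1).re * N τA X + N τD₁ f) +
      C * ((8 * L ^ 2 + 1) * SA τD₁ i₁ F f + 8 * K ^ 2 * (τ₁ 1).re * S τA F X)) ≤
      L * (δ * (4 * K ^ 2 * (τ₁ 1).re * N τA x + N τD₁ f) +
      C * ((8 * L ^ 2 + 1) * SA τD₁ i₁ F f + 8 * K ^ 2 * (τ₁ 1).re * S τA F x)) := by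
    refine mul_le_mul_of_nonneg_left (add_le_add (mul_le_mul_of_nonneg_left ?_ hδ)
      (mul_le_mul_of_nonneg_left ?_ hC)) hL.le
    · have := mul_le_mul_of_nonneg_left h3 (show 0 ≤ 4 * K ^ 2 * (τ₁ 1).re by positivity)
      linarith
    · have := mul_le_mul_of_nonneg_left h9 (show 0 ≤ 8 * K ^ 2 * (τ₁ 1).re by positivity)
      linarith
  have h13 : 8 * K ^ 2 * (τ₁ 1).re / L ^ 2 * N τA (star x * x) =
      2 * (4 * K ^ 2 * (N τA (star x * x) / L ^ 2 * (τ₁ 1).re)) := by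
    ring
  rw [h13]
  have h14 := h5.trans h12
  linarith

/-- The estimate for an element of the algebraic tensor product. -/
theorem alg_two (H : Tri τD₁ τ₂ τD₂ τE i₁ i₂ k₂ j₁ kE j₂) (T₁ : Tens τA τ₁ τD₁ i₁ k₁)
    (T₂ : Tens τA τ₂ τD₂ i₂ k₂) {F : Finset A} {C δ : ℝ} (hC : 0 ≤ C) (hδ : 0 ≤ δ)
    (hP : ∀ (f g : D₁) (X : A), ‖X‖ ≤ 1 → ‖τD₁ ((f * g - g * f) * i₁ X)‖ ≤
      δ * (N τD₁ f + N τD₁ g) + C * (SA τD₁ i₁ F f + SA τD₁ i₁ F g))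
    (f : D₁) {K L M : ℝ} (hf : ‖f‖ ≤ K) (hL : 0 < L) (ht₁ : 0 ≤ (τ₁ 1).re)
    (ht₂ : 0 ≤ (τ₂ 1).re) {n : ℕ} (a : Fin n → A) (e : Fin n → B₂)
    (he : ∀ p q, τ₂ (star (e p) * e q) = if p = q then 1 else 0) {g : D₂}
    (hg : g = ∑ q, i₂ (a q) * k₂ (e q)) (hM : ‖g‖ ≤ M) :
    N τE (cm (j₁ f) (j₂ g)) ≤
      2 * L * (δ * N τD₁ f + C * ((8 * L ^ 2 + 1) * SA τD₁ i₁ F f)) +
      (2 * L * δ * (4 * K ^ 2 * (τ₁ 1).re) * N τD₂ g +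
        (2 * L * C * (8 * K ^ 2 * (τ₁ 1).re) * SA τD₂ i₂ F g +
          8 * K ^ 2 * (τ₁ 1).re / L ^ 2 * (3 * (M ^ 2 * (τ₂ 1).re) * N τD₂ g))) := by
  have hN : N τD₂ g = ((List.ofFn a).map (N τA)).sum := by
    rw [hg, N_sum_tens T₂ a e he, List.map_ofFn, List.sum_ofFn]
    rfl
  have hS : SA τD₂ i₂ F g = ((List.ofFn a).map (S τA F)).sum := by
    rw [hg, List.map_ofFn, List.sum_ofFn]
    exact S_sum_tens T₂ a e he F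
  have hQ : Quad fun x => N τD₁ (cm f (i₁ x)) := by
    intro x y
    have e1 : cm f (i₁ (x + y)) = cm f (i₁ x) + cm f (i₁ y) := by
      unfold cm
      rw [map_add]
      noncomm_ring
    have e2 : cm f (i₁ (x - y)) = cm f (i₁ x) - cm f (i₁ y) := by
      unfold cm
      rw [map_sub]
      noncomm_ring
    dsimp only
    rw [e1, e2, N_par]
  have hQS : Quad (S τA F) := by
    refine Quad.sum F fun u _ => Quad.add (quad_N_cm τA u) ?_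
    intro x y
    have e1 : cm (star (x + y)) u = cm (star x) u + cm (star y) u := by
      unfold cm
      rw [star_add]
      noncomm_ring
    have e2 : cm (star (x - y)) u = cm (star x) u - cm (star y) u := by
      unfold cm
      rw [star_sub]
      noncomm_ring
    dsimp only
    rw [e1, e2, N_par]
  have z1 : N τD₁ (cm f (i₁ 0)) = 0 := by
    rw [map_zero]
    unfold cm
    rw [mul_zero, zero_mul, sub_zero, N_zero]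
  have z2 : S τA F 0 = 0 := by
    unfold S
    refine Finset.sum_eq_zero fun u _ => ?_
    unfold cm
    rw [star_zero, mul_zero, zero_mul, sub_zero, N_zero, add_zero]
  have h1 : N τE (cm (j₁ f) (j₂ g)) =
      avgS (List.ofFn a) (fun x => N τD₁ (cm f (i₁ x))) 0 := by
    rw [avgS_quad _ hQ, z1, zero_add, List.map_ofFn, List.sum_ofFn, hg, H.N_cm_sum f a e he]
    rfl
  have h2 := avgS_mono (List.ofFn a) (fun x => pt_two T₁ hC hδ hP f x hf hL ht₁) 0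
  have h3 := avgS_four_le T₂.trA (List.ofFn a) (K := M ^ 2 * (τ₂ 1).re) ?_ ?_
  · rw [h1]
    refine h2.trans ?_
    rw [avgS_add, avgS_const, avgS_add, avgS_smul, avgS_add, avgS_smul, avgS_smul,
      avgS_quad _ (quad_N τA), avgS_quad _ hQS, N_zero, z2, zero_add, zero_add, ← hN, ← hS]
    rw [← hN] at h3
    have h4 := mul_le_mul_of_nonneg_left h3
      (show 0 ≤ 8 * K ^ 2 * (τ₁ 1).re / L ^ 2 by positivity)
    linarith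
  · intro x
    have e1 : ((List.ofFn a).map fun y => N τA (y * x)).sum = N τD₂ (g * i₂ x) := by
      rw [List.map_ofFn, List.sum_ofFn, hg, Finset.sum_mul]
      have : ∀ q, i₂ (a q) * k₂ (e q) * i₂ x = i₂ (a q * x) * k₂ (e q) := by
        intro q
        rw [mul_assoc, ← T₂.comm, map_mul, mul_assoc]
      rw [Finset.sum_congr rfl fun q _ => this q, N_sum_tens T₂ _ e he]
      rfl
    rw [e1]
    have h5 := N_mul_le_left T₂.trD g (i₂ x)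
    have h6 : ‖g‖ ^ 2 ≤ M ^ 2 := pow_le_pow_left₀ (norm_nonneg _) hM 2
    have h7 := mul_le_mul_of_nonneg_right h6 (N_nonneg T₂.trD (i₂ x))
    rw [N_iA_OneSided T₂] at h5 h7
    linarith
  · intro x
    have e1 : ((List.ofFn a).map fun y => N τA (x * y)).sum = N τD₂ (i₂ x * g) := by
      rw [List.map_ofFn, List.sum_ofFn, hg, Finset.mul_sum]
      have : ∀ q, i₂ x * (i₂ (a q) * k₂ (e q)) = i₂ (x * a q) * k₂ (e q) := by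
        intro q
        rw [map_mul, mul_assoc]
      rw [Finset.sum_congr rfl fun q _ => this q, N_sum_tens T₂ _ e he]
      rfl
    rw [e1]
    have h5 := N_mul_le_right T₂.trD (i₂ x) g
    have h6 : ‖g‖ ^ 2 ≤ M ^ 2 := pow_le_pow_left₀ (norm_nonneg _) hM 2
    have h7 := mul_le_mul_of_nonneg_right h6 (N_nonneg T₂.trD (i₂ x))
    rw [N_iA_OneSided T₂] at h5 h7
    linarith

end Pool.McT
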