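import Pool.Agent.McT.Q.Fin

/-! Two partners: constants which do not depend on the partners. -/

set_option autoImplicit false

namespace Pool.McT

open Filter Topology

universe u v

section
variable {A B C D : Type*} [CStarAlgebra A] [CStarAlgebra B] [CStarAlgebra C] [CStarAlgebra D]

/-- `j (i a) = j' (i' a)`. -/
def Same (i : A →⋆ₐ[ℂ] B) (i' : A →⋆ₐ[ℂ] C) (j : B →⋆ₐ[ℂ] D) (j' : C →⋆ₐ[ℂ] D) : Prop :=
  ∀ a, j (i a) = j' (i' a)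

/-- `τ (j y) = τ' y`. -/
def Ext (τ' : B →ₗ[ℂ] ℂ) (τ : D →ₗ[ℂ] ℂ) (j : B →⋆ₐ[ℂ] D) : Prop := ∀ y, τ (j y) = τ' y

/-- `τ ([f, g] i X)`. -/
noncomputable def cTest (τ : D →ₗ[ℂ] ℂ) (i : A →⋆ₐ[ℂ] D) (f g : D) (X : A) : ℂ :=
  τ ((f * g - g * f) * i X)

/-- The square of the 2-norm of `[j f, j' g]`. -/
noncomputable def ccm (τ : D →ₗ[ℂ] ℂ) (j : B →⋆ₐ[ℂ] D) (j' : C →⋆ₐ[ℂ] D) (f : B) (g : C) : ℝ :=
  N τ (cm (j f) (j' g))

/-- The square of the 2-norm of `[f, i u]`. -/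
noncomputable def cmA (τ : D →ₗ[ℂ] ℂ) (i : A →⋆ₐ[ℂ] D) (f : D) (u : A) : ℝ :=
  N τ (cm f (i u))

end

/-- A partner of `A`: an algebra `B` with a faithful tracial state and `D = A ⊗ B`. -/
structure Partner {A : Type u} [CStarAlgebra A] (τA : A →ₗ[ℂ] ℂ) where
  (B D : Type v)
  [cB : CStarAlgebra B]
  [cD : CStarAlgebra D]
  (τB : B →ₗ[ℂ] ℂ)
  (τD : D →ₗ[ℂ] ℂ)
  (iA : A →⋆ₐ[ℂ] D)
  (iB : B →⋆ₐ[ℂ] D)
  (tens : Tens τA τB τD iA iB)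
  (dense : Dense2 τD iA iB)
  (faithful : ∀ x : B, N τB x = 0 → x = 0)
  (one : τB 1 = 1)

attribute [instance] Partner.cB Partner.cD

/-- Two partners `B₁`, `B₂` of `A` and an algebra `E` which contains `D₁ = A ⊗ B₁` and
`D₂ = A ⊗ B₂`, with the same copy of `A`, `B₂` commuting with `D₁` and independent of it
(`D₁` and `B₂` are in tensor position in `E`). -/
structure TwoPart {A : Type u} [CStarAlgebra A] (τA : A →ₗ[ℂ] ℂ) where
  (P Q : Partner.{u, v} τA)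
  (E : Type v)
  [cE : CStarAlgebra E]
  (τE : E →ₗ[ℂ] ℂ)
  (j₁ : P.D →⋆ₐ[ℂ] E)
  (j₂ : Q.D →⋆ₐ[ℂ] E)
  (tens : Tens P.τD Q.τB τE j₁ (j₂.comp Q.iB))
  (agree : Same Q.iA P.iA j₂ j₁)
  (tau : Ext Q.τD τE j₂)

attribute [instance] TwoPart.cE

section
variable {A : Type u} [CStarAlgebra A] {τA : A →ₗ[ℂ] ℂ}

/-- The square of the 2-norm of an element of `D = A ⊗ B`. -/
noncomputable def Partner.nn (P : Partner.{u, v} τA) (f : P.D) : ℝ := N P.τD f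

/-- The sum of the squares of the commutators of `f`, `f*` with the elements of `F`. -/
noncomputable def Partner.ss (P : Partner.{u, v} τA) (F : Finset A) (f : P.D) : ℝ :=
  SA P.τD P.iA F f

/-- The number `τ ([f, g] X)`, `X ∈ A`. -/
noncomputable def Partner.tst (P : Partner.{u, v} τA) (f g : P.D) (X : A) : ℂ :=
  cTest P.τD P.iA f g X

/-- The square of the 2-norm of the commutator of `f ∈ A ⊗ B₁` and `g ∈ A ⊗ B₂`. -/
noncomputable def TwoPart.cc (W : TwoPart.{u, v} τA) (f : W.P.D) (g : W.Q.D) : ℝ :=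
  ccm W.τE W.j₁ W.j₂ f g

/-- `f n ∈ A ⊗ B n` commutes asymptotically with every element of `A`. -/
def AsyComm (P : ℕ → Partner.{u, v} τA) (f : ∀ n, (P n).D) : Prop :=
  ∀ u : A, Tendsto (fun n => cmA (P n).τD (P n).iA (f n) u) atTop (𝓝 0)

end

variable {A : Type u} [CStarAlgebra A] {τA : A →ₗ[ℂ] ℂ}

theorem TwoPart.tri (W : TwoPart.{u, v} τA) :
    Tri W.P.τD W.Q.τB W.Q.τD W.τE W.P.iA W.Q.iA W.Q.iB W.j₁ (W.j₂.comp W.Q.iB) W.j₂ where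
  tens := W.tens
  left := W.agree
  right _ := rfl
  tau := W.tau

/-- `one_factor` with constants which do not depend on the partner. -/
theorem one_uniform (hA : Fac τA) (sA : Sep τA) (mA : ¬ McDuff τA) {δ : ℝ} (hδ : 0 < δ) :
    ∃ (F : Finset A) (C : ℝ), 0 ≤ C ∧ ∀ (P : Partner.{u, v} τA) (f g : P.D) (X : A),
      ‖X‖ ≤ 1 → ‖P.τD ((f * g - g * f) * P.iA X)‖ ≤ δ * (N P.τD f + N P.τD g)
        + C * (SA P.τD P.iA F f + SA P.τD P.iA F g) := by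
  obtain ⟨FA, κ, hκ, hNA⟩ := exists_NM hA sA mA
  obtain ⟨n, hn⟩ := exists_pow_lt_of_lt_one (show (0 : ℝ) < δ / 34 by positivity)
    (show (1 / 2 : ℝ) < 1 by norm_num)
  set J : ℕ := max n 3 with hJ
  have hJ3 : 3 ≤ J := le_max_right _ _
  set η : ℝ := (1 / 2 : ℝ) ^ J with hη
  have hη0 : 0 < η := by positivity
  have hηδ : 34 * η ≤ δ := by
    have h1 : η ≤ (1 / 2 : ℝ) ^ n :=
      pow_le_pow_of_le_one (by norm_num) (by norm_num) (le_max_left _ _)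
    linarith
  have h4 : (1 / 4 : ℝ) ^ J = η * η := by
    rw [hη, ← mul_pow]
    norm_num
  have hAD := absdiff hA.tr hκ hNA hJ3
  refine ⟨FA, 2 * (520 * κ * J / η), by positivity, fun P f g X hX => ?_⟩
  have h5 := one_bound P.tens P.dense hA.faithful P.faithful (by positivity) (by positivity)
    hAD hX hη0 f g
  refine h5.trans (add_le_add (mul_le_mul_of_nonneg_right ?_
    (add_nonneg (N_nonneg P.tens.trD f) (N_nonneg P.tens.trD g))) le_rfl)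
  rw [h4]
  have h6 : 16 * (η * η) / η = 16 * η := by
    field_simp
  rw [h6]
  linarith

theorem Partner.N_one (hA : Fac τA) (P : Partner.{u, v} τA) : N P.τD 1 = 1 := by
  have h1 := N_iA_OneSided P.tens 1
  rw [map_one, P.one, Complex.one_re, mul_one] at h1
  rw [h1]
  unfold N
  rw [star_one, mul_one, hA.one, Complex.one_re]

private theorem N_le_Unif {D : Type*} [CStarAlgebra D] {τ : D →ₗ[ℂ] ℂ} (hτ : IsTr τ) {x : D}
    {K : ℝ} (hx : ‖x‖ ≤ K) (h1 : N τ 1 = 1) : N τ x ≤ K ^ 2 := by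
  have h := N_mul_le_left hτ x 1
  rw [mul_one, h1, mul_one] at h
  exact h.trans (pow_le_pow_left₀ (norm_nonneg _) hx 2)

private theorem SA_le_Unif {D : Type*} [CStarAlgebra D] {τ : D →ₗ[ℂ] ℂ} (hτ : IsTr τ)
    (i : A →⋆ₐ[ℂ] D) (F : Finset A) (g g' : D) {η : ℝ} (h : N τ (g - g') ≤ η) :
    SA τ i F g' ≤ 2 * SA τ i F g + 16 * (∑ u ∈ F, ‖u‖ ^ 2) * η := by
  unfold SA
  rw [Finset.mul_sum, Finset.mul_sum, Finset.sum_mul, ← Finset.sum_add_distrib]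
  refine Finset.sum_le_sum fun u _ => ?_
  have hη : 0 ≤ η := (N_nonneg hτ _).trans h
  have hu : ‖i u‖ ^ 2 ≤ ‖u‖ ^ 2 :=
    pow_le_pow_left₀ (norm_nonneg _) (NonUnitalStarAlgHom.norm_apply_le i u) 2
  have key : ∀ x y : D, N τ (x - y) ≤ η →
      N τ (cm y (i u)) ≤ 2 * N τ (cm x (i u)) + 8 * ‖u‖ ^ 2 * η := by
    intro x y hxy
    have e : cm y (i u) = cm x (i u) + -cm (x - y) (i u) := by
      unfold cm
      noncomm_ring
    have h1 := N_add_le hτ (cm x (i u)) (-cm (x - y) (i u))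
    rw [N_neg, ← e] at h1
    have h2 := N_cm_le_MainZ hτ (x - y) (i u)
    have h3 : 4 * ‖i u‖ ^ 2 * N τ (x - y) ≤ 4 * ‖u‖ ^ 2 * η :=
      mul_le_mul (by linarith) hxy (N_nonneg hτ _) (by positivity)
    linarith
  have h1 := key g g' h
  have h2 := key (star g) (star g') (by rwa [← star_sub, N_star hτ])
  linarith

/-- Two partners, with constants which depend on `A`, `ε`, `K` only. -/
theorem two_uniform (hA : Fac τA) (sA : Sep τA) (mA : ¬ McDuff τA) {ε : ℝ} (hε : 0 < ε)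
    (K : ℝ) :
    ∃ (F : Finset A) (C : ℝ), 0 ≤ C ∧ ∀ (W : TwoPart.{u, v} τA) (f : W.P.D) (g : W.Q.D),
      ‖f‖ ≤ K → ‖g‖ ≤ K → N W.τE (cm (W.j₁ f) (W.j₂ g)) ≤ ε + C *
        (SA W.P.τD W.P.iA F f + SA W.Q.τD W.Q.iA F g) := by
  obtain ⟨M, hM⟩ : ∃ M : ℝ, M = 2 * K + 1 := ⟨_, rfl⟩
  obtain ⟨c₁, hc₁⟩ : ∃ c₁ : ℝ, c₁ = K ^ 2 + 4 * K ^ 2 * M ^ 2 := ⟨_, rfl⟩
  obtain ⟨c₂, hc₂⟩ : ∃ c₂ : ℝ, c₂ = 8 * K ^ 2 * (3 * M ^ 2 * M ^ 2) := ⟨_, rfl⟩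
  have hc₁0 : 0 ≤ c₁ := by rw [hc₁]; positivity
  have hc₂0 : 0 ≤ c₂ := by rw [hc₂]; positivity
  obtain ⟨L, hL⟩ : ∃ L : ℝ, L = 1 + 8 * c₂ / ε := ⟨_, rfl⟩
  have hL1 : 1 ≤ L := by
    rw [hL]
    have : 0 ≤ 8 * c₂ / ε := by positivity
    linarith
  have hL0 : 0 < L := by linarith
  have hLc : c₂ / L ^ 2 ≤ ε / 8 := by
    rw [div_le_iff₀ (by positivity)]
    have h1 : 8 * c₂ / ε ≤ L := by rw [hL]; linarith
    rw [div_le_iff₀ hε] at h1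
    have h2 : L * ε ≤ L ^ 2 * ε := mul_le_mul_of_nonneg_right (by nlinarith) hε.le
    linarith
  obtain ⟨δ, hδ⟩ : ∃ δ : ℝ, δ = ε / (16 * L * (c₁ + 1)) := ⟨_, rfl⟩
  have hδ0 : 0 < δ := by rw [hδ]; positivity
  have hδc : 2 * L * δ * c₁ ≤ ε / 8 := by
    have h1 : δ * (16 * L * (c₁ + 1)) = ε := by
      rw [hδ]
      field_simp
    have h2 : 0 ≤ L * δ := by positivity
    nlinarith
  obtain ⟨F, C, hC, hP⟩ := one_uniform.{u, v} hA sA mA hδ0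
  obtain ⟨s, hs⟩ : ∃ s : ℝ, s = ∑ u ∈ F, ‖u‖ ^ 2 := ⟨_, rfl⟩
  have hs0 : 0 ≤ s := by
    rw [hs]
    exact Finset.sum_nonneg fun u _ => by positivity
  obtain ⟨c₃, hc₃⟩ : ∃ c₃ : ℝ, c₃ = 2 * L * C * (8 * K ^ 2) := ⟨_, rfl⟩
  have hc₃0 : 0 ≤ c₃ := by rw [hc₃]; positivity
  obtain ⟨η, hη⟩ : ∃ η : ℝ, η = ε / (2 * (8 * K ^ 2 + 32 * c₃ * s + 1)) := ⟨_, rfl⟩
  have hη0 : 0 < η := by rw [hη]; positivity
  have hηc : (8 * K ^ 2 + 32 * c₃ * s) * η ≤ ε / 2 := by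
    have h1 : η * (2 * (8 * K ^ 2 + 32 * c₃ * s + 1)) = ε := by
      rw [hη]
      field_simp
    nlinarith
  obtain ⟨c₄, hc₄⟩ : ∃ c₄ : ℝ, c₄ = 2 * L * C * (8 * L ^ 2 + 1) := ⟨_, rfl⟩
  have hc₄0 : 0 ≤ c₄ := by rw [hc₄]; positivity
  refine ⟨F, 2 * c₄ + 4 * c₃, by positivity, fun W f g hf hg => ?_⟩
  have H := W.tri
  have T₁ := W.P.tens
  have T₂ := W.Q.tens
  have t₁ : (W.P.τB 1).re = 1 := by rw [W.P.one, Complex.one_re]
  have t₂ : (W.Q.τB 1).re = 1 := by rw [W.Q.one, Complex.one_re]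
  obtain ⟨k, a, b, hg'M, hgg'⟩ := kap T₂ W.Q.dense hg hη0
  obtain ⟨g', hg'⟩ : ∃ g' : W.Q.D, g' = ∑ i, W.Q.iA (a i) * W.Q.iB (b i) := ⟨_, rfl⟩
  rw [← hg'] at hg'M hgg'
  rw [← hM] at hg'M
  obtain ⟨m, n, e, h, c, -, -, he, hh, hc⟩ := exists_repr T₂ hA.faithful W.Q.faithful k a b
  have hrep : g' = ∑ q, W.Q.iA (∑ p, c p q • e p) * W.Q.iB (h q) :=
    hg'.trans (hc.trans (repr_left e h c))
  have h1 := alg_two H T₁ T₂ hC hδ0.le (hP W.P) f hf hL0 (by rw [t₁]; norm_num)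
    (by rw [t₂]; norm_num) _ h hh hrep hg'M
  rw [t₁, t₂, mul_one, mul_one, mul_one] at h1
  have h2 := N_le_Unif T₁.trD hf (W.P.N_one hA)
  have h3 := N_le_Unif T₂.trD hg'M (W.Q.N_one hA)
  have h4 := SA_le_Unif T₂.trD W.Q.iA F g g' hgg'
  rw [← hs] at h4
  have h5 : cm (W.j₁ f) (W.j₂ g) = cm (W.j₁ f) (W.j₂ g') + cm (W.j₁ f) (W.j₂ (g - g')) := by
    unfold cm
    rw [map_sub]
    noncomm_ring
  have h6 := N_add_le W.tens.trD (cm (W.j₁ f) (W.j₂ g')) (cm (W.j₁ f) (W.j₂ (g - g')))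
  rw [← h5] at h6
  have h7 := N_cm_le'_MainZ W.tens.trD (W.j₁ f) (W.j₂ (g - g'))
  rw [H.N_j] at h7
  have h8 : 4 * ‖W.j₁ f‖ ^ 2 * N W.Q.τD (g - g') ≤ 4 * K ^ 2 * η := by
    have h9 : ‖W.j₁ f‖ ^ 2 ≤ K ^ 2 := pow_le_pow_left₀ (norm_nonneg _)
      ((NonUnitalStarAlgHom.norm_apply_le W.j₁ f).trans hf) 2
    exact mul_le_mul (by linarith) hgg' (N_nonneg T₂.trD _) (by positivity)
  have h10 : 2 * L * δ * N W.P.τD f + 2 * L * δ * (4 * K ^ 2) * N W.Q.τD g' ≤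
      2 * L * δ * c₁ := by
    have a1 := mul_le_mul_of_nonneg_left h2 (show 0 ≤ 2 * L * δ by positivity)
    have a2 := mul_le_mul_of_nonneg_left h3 (show 0 ≤ 2 * L * δ * (4 * K ^ 2) by positivity)
    rw [hc₁]
    linarith
  have h11 : 8 * K ^ 2 / L ^ 2 * (3 * M ^ 2 * N W.Q.τD g') ≤ c₂ / L ^ 2 := by
    have a1 := mul_le_mul_of_nonneg_left h3
      (show 0 ≤ 8 * K ^ 2 / L ^ 2 * (3 * M ^ 2) by positivity)
    have e1 : c₂ / L ^ 2 = 8 * K ^ 2 / L ^ 2 * (3 * M ^ 2) * M ^ 2 := by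
      rw [hc₂]
      ring
    rw [e1]
    linarith
  have h12 : 2 * L * C * (8 * K ^ 2) * SA W.Q.τD W.Q.iA F g' ≤
      c₃ * (2 * SA W.Q.τD W.Q.iA F g + 16 * s * η) := by
    rw [hc₃]
    exact mul_le_mul_of_nonneg_left h4 (by positivity)
  have h13 : 2 * L * (C * ((8 * L ^ 2 + 1) * SA W.P.τD W.P.iA F f)) =
      c₄ * SA W.P.τD W.P.iA F f := by
    rw [hc₄]
    ring
  have p1 : 0 ≤ c₃ * SA W.P.τD W.P.iA F f := mul_nonneg hc₃0 (SA_nonneg T₁.trD F f)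
  have p2 : 0 ≤ c₄ * SA W.Q.τD W.Q.iA F g := mul_nonneg hc₄0 (SA_nonneg T₂.trD F g)
  linarith

/-- Sequences; the partners may depend on `n`. -/
theorem two_uniform_seq (hA : Fac τA) (sA : Sep τA) (mA : ¬ McDuff τA)
    (W : ℕ → TwoPart.{u, v} τA) (f : ∀ n, (W n).P.D) (g : ∀ n, (W n).Q.D) (K : ℝ)
    (hf : ∀ n, ‖f n‖ ≤ K) (hg : ∀ n, ‖g n‖ ≤ K)
    (cf : ∀ u : A, Tendsto (fun n => N (W n).P.τD (cm (f n) ((W n).P.iA u))) atTop (𝓝 0))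
    (cg : ∀ u : A, Tendsto (fun n => N (W n).Q.τD (cm (g n) ((W n).Q.iA u))) atTop (𝓝 0)) :
    Tendsto (fun n => N (W n).τE (cm ((W n).j₁ (f n)) ((W n).j₂ (g n)))) atTop (𝓝 0) := by
  rw [Metric.tendsto_atTop]
  intro ε hε
  obtain ⟨F, C, hC, h⟩ := two_uniform.{u, v} hA sA mA (half_pos hε) K
  have s₁ : Tendsto (fun n => SA (W n).P.τD (W n).P.iA F (f n)) atTop (𝓝 0) := by
    unfold SA
    have h1 : Tendsto (fun n => ∑ u ∈ F, (N (W n).P.τD (cm (f n) ((W n).P.iA u)) +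
        N (W n).P.τD (cm (star (f n)) ((W n).P.iA u)))) atTop (𝓝 (∑ _u ∈ F, (0 + 0 : ℝ))) := by
      refine tendsto_finsetSum _ fun u _ => (cf u).add ?_
      refine (cf (star u)).congr fun n => ?_
      rw [N_cm_star (W n).P.tens.trD, map_star]
    simpa using h1
  have s₂ : Tendsto (fun n => SA (W n).Q.τD (W n).Q.iA F (g n)) atTop (𝓝 0) := by
    unfold SA
    have h1 : Tendsto (fun n => ∑ u ∈ F, (N (W n).Q.τD (cm (g n) ((W n).Q.iA u)) +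
        N (W n).Q.τD (cm (star (g n)) ((W n).Q.iA u)))) atTop (𝓝 (∑ _u ∈ F, (0 + 0 : ℝ))) := by
      refine tendsto_finsetSum _ fun u _ => (cg u).add ?_
      refine (cg (star u)).congr fun n => ?_
      rw [N_cm_star (W n).Q.tens.trD, map_star]
    simpa using h1
  have h1 := (s₁.add s₂).const_mul C
  rw [add_zero, mul_zero] at h1
  obtain ⟨n₀, hn₀⟩ := (Metric.tendsto_atTop.1 h1) (ε / 2) (half_pos hε)
  refine ⟨n₀, fun n hn => ?_⟩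
  have h3 := hn₀ n hn
  rw [Real.dist_eq, sub_zero] at h3
  have h4 := (le_abs_self _).trans_lt h3
  rw [Real.dist_eq, sub_zero, abs_of_nonneg (N_nonneg (W n).tens.trD _)]
  have h5 := h (W n) (f n) (g n) (hf n) (hg n)
  linarith

end Pool.McT
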